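import Pool.Agent.H85.AK.Stmt

/-! The statements `S_orbit` and `S_root` of the project AK (helper85). -/

set_option autoImplicit false

namespace Pool.Agent.H640.AK

open scoped Pointwise
open Finset

/-- the union of the first `k` dilates -/
noncomputable def orb (r : ℂ) (S : Finset ℂ) (k : ℕ) : Finset ℂ :=
  (range k).biUnion fun i => S.image fun z => r ^ i * z

lemma orb_succ (r : ℂ) (S : Finset ℂ) (k : ℕ) :
    orb r S (k + 1) = orb r S k ∪ S.image fun z => r ^ k * z := by
  ext w
  simp only [orb, mem_biUnion, mem_range, mem_union, mem_image]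
  constructor
  · rintro ⟨i, hi, z, hz, rfl⟩
    rcases Nat.lt_succ_iff_lt_or_eq.mp hi with h | h
    · exact Or.inl ⟨i, h, z, hz, rfl⟩
    · subst h
      exact Or.inr ⟨z, hz, rfl⟩
  · rintro (⟨i, hi, z, hz, rfl⟩ | ⟨z, hz, rfl⟩)
    · exact ⟨i, Nat.lt_succ_of_lt hi, z, hz, rfl⟩
    · exact ⟨k, Nat.lt_succ_self k, z, hz, rfl⟩

lemma orb_succ' (r : ℂ) (S : Finset ℂ) (k : ℕ) :
    orb r S (k + 1) = S ∪ (orb r S k).image fun z => r * z := by
  ext w
  simp only [orb, mem_biUnion, mem_range, mem_union, mem_image]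
  constructor
  · rintro ⟨i, hi, z, hz, rfl⟩
    rcases i with _ | i
    · left
      simpa using hz
    · right
      exact ⟨r ^ i * z, ⟨i, by omega, z, hz, rfl⟩, by ring⟩
  · rintro (h | ⟨y, ⟨i, hi, z, hz, rfl⟩, rfl⟩)
    · exact ⟨0, by omega, w, h, by simp⟩
    · exact ⟨i + 1, by omega, z, hz, by ring⟩

lemma orb_union (r : ℂ) (S : Finset ℂ) {m : ℕ} (hm : 0 < m) :
    orb r S m ∪ (orb r S m).image (fun z => r * z) = orb r S (m + 1) := by
  have h1 : S ⊆ orb r S m := by
    intro z hz
    simp only [orb, mem_biUnion, mem_range, mem_image]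
    exact ⟨0, hm, z, hz, by simp⟩
  apply subset_antisymm
  · apply union_subset
    · rw [orb_succ]
      exact subset_union_left
    · rw [orb_succ']
      exact subset_union_right
  · rw [orb_succ']
    exact union_subset_union h1 (subset_refl _)

/-- the number of new elements -/
noncomputable def gain (r : ℂ) (S : Finset ℂ) (k : ℕ) : ℕ :=
  ((S.image fun z => r ^ k * z) \ orb r S k).card

lemma card_orb_succ (r : ℂ) (S : Finset ℂ) (k : ℕ) :
    (orb r S (k + 1)).card = (orb r S k).card + gain r S k := by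
  rw [orb_succ, gain, ← card_union_of_disjoint disjoint_sdiff, union_sdiff_self_eq_union]

lemma gain_succ (r : ℂ) (S : Finset ℂ) (k : ℕ) : gain r S (k + 1) ≤ gain r S k := by
  unfold gain
  have h : ((S.image fun z => r ^ (k + 1) * z) \ orb r S (k + 1)) ⊆
      ((S.image fun z => r ^ k * z) \ orb r S k).image fun z => r * z := by
    intro w hw
    rw [mem_sdiff, mem_image] at hw
    obtain ⟨⟨z, hz, rfl⟩, h2⟩ := hw
    rw [mem_image]
    refine ⟨r ^ k * z, ?_, by ring⟩
    rw [mem_sdiff, mem_image]
    refine ⟨⟨z, hz, rfl⟩, fun h3 => h2 ?_⟩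
    rw [orb_succ', mem_union, mem_image]
    exact Or.inr ⟨r ^ k * z, h3, by ring⟩
  exact (card_le_card h).trans card_image_le

lemma mul_gain (r : ℂ) (S : Finset ℂ) (m : ℕ) : m * gain r S m ≤ (orb r S m).card := by
  induction m with
  | zero => simp
  | succ m ih =>
    rw [card_orb_succ]
    have h1 := gain_succ r S m
    calc (m + 1) * gain r S (m + 1) ≤ (m + 1) * gain r S m := Nat.mul_le_mul_left _ h1
      _ = m * gain r S m + gain r S m := by ring
      _ ≤ _ := Nat.add_le_add_right ih _

/-- **Almost invariant unions.** -/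
theorem s_orbit : Pool.Agent.H85.AK.Stmt.S_orbit := by
  intro r S m _ hm
  change m * (orb r S m ∪ (orb r S m).image fun z => r * z).card ≤ (m + 1) * (orb r S m).card
  rw [orb_union r S hm, card_orb_succ]
  have h := mul_gain r S m
  calc m * ((orb r S m).card + gain r S m) = m * (orb r S m).card + m * gain r S m := by ring
    _ ≤ m * (orb r S m).card + (orb r S m).card := Nat.add_le_add_left h _
    _ = _ := by ring

/-- **Roots of unity.** -/
theorem s_root : Pool.Agent.H85.AK.Stmt.S_root := by
  intro r n hn hr N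
  set M := max N 1 with hM
  have hM1 : 1 ≤ M := le_max_right _ _
  have hr0 : r ≠ 0 := by
    rintro rfl
    rw [zero_pow hn.ne'] at hr
    exact zero_ne_one hr
  have : NeZero n := ⟨hn.ne'⟩
  have : NeZero M := ⟨by omega⟩
  refine ⟨Pool.Agent.H85.AK.Stmt.digs r M n, ?_, ?_, ?_⟩
  · -- many elements
    have h1 : (Finset.univ : Finset (Fin M)).card ≤
        (Pool.Agent.H85.AK.Stmt.digs r M n).card := by
      apply Finset.card_le_card_of_injOn (fun t : Fin M => ((t : ℕ) : ℂ))
      · intro t _
        rw [Finset.mem_coe, Pool.Agent.H85.AK.Stmt.digs, mem_image]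
        refine ⟨fun j => if j = 0 then t else 0, mem_univ _, ?_⟩
        rw [Finset.sum_eq_single (0 : Fin n)]
        · simp
        · intro j _ hj
          simp [hj]
        · intro h
          exact absurd (mem_univ _) h
      · intro s _ t _ hst
        have : ((s : ℕ) : ℂ) = ((t : ℕ) : ℂ) := hst
        exact Fin.ext (by exact_mod_cast this)
    rw [Finset.card_univ, Fintype.card_fin] at h1
    exact (le_max_left N 1).trans h1
  · -- invariance
    apply Finset.eq_of_subset_of_card_le
    · intro w hw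
      rw [mem_image] at hw
      obtain ⟨z, hz, rfl⟩ := hw
      rw [Pool.Agent.H85.AK.Stmt.digs, mem_image] at hz ⊢
      obtain ⟨a, _, rfl⟩ := hz
      refine ⟨fun j => a (j - 1), mem_univ _, ?_⟩
      rw [Finset.mul_sum]
      rw [← Equiv.sum_comp (Equiv.addRight (1 : Fin n))]
      apply Finset.sum_congr rfl
      intro i _
      have h1 : (Equiv.addRight (1 : Fin n)) i - 1 = i := by simp
      dsimp only
      rw [h1]
      have h2 : (((Equiv.addRight (1 : Fin n)) i : Fin n) : ℕ) = ((i : ℕ) + 1) % n := by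
        rw [Equiv.coe_addRight, Fin.val_add]
        rw [Fin.val_one']
        exact Nat.add_mod_mod _ _ _
      rw [h2, ← pow_eq_pow_mod _ hr, pow_succ]
      ring
    · rw [Finset.card_image_of_injective]
      intro x y hxy
      exact mul_left_cancel₀ hr0 hxy
  · -- the sumset
    have hsub : Pool.Agent.H85.AK.Stmt.digs r M n + Pool.Agent.H85.AK.Stmt.digs r M n ⊆
        ((Finset.univ : Finset (Fin n → Fin 2)) ×ˢ Pool.Agent.H85.AK.Stmt.digs r M n).image
          (fun p => (∑ j : Fin n, ((p.1 j : ℕ) : ℂ) * ((M - 1 : ℕ) : ℂ) * r ^ (j : ℕ)) + p.2) := by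
      intro w hw
      rw [Finset.mem_add] at hw
      obtain ⟨x, hx, y, hy, rfl⟩ := hw
      rw [Pool.Agent.H85.AK.Stmt.digs, mem_image] at hx hy
      obtain ⟨a, _, rfl⟩ := hx
      obtain ⟨b, _, rfl⟩ := hy
      rw [mem_image]
      have hlt : ∀ j, ¬ ((a j : ℕ) + (b j : ℕ) < M) → (a j : ℕ) + (b j : ℕ) - (M - 1) < M := by
        intro j hj
        have h1 := (a j).2
        have h2 := (b j).2
        omega
      refine ⟨(fun j => if (a j : ℕ) + (b j : ℕ) < M then 0 else 1,
        ∑ j : Fin n, (((if h : (a j : ℕ) + (b j : ℕ) < M then (⟨(a j : ℕ) + (b j : ℕ), h⟩ : Fin M)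
          else ⟨(a j : ℕ) + (b j : ℕ) - (M - 1), hlt j h⟩ : Fin M) : ℕ) : ℂ) * r ^ (j : ℕ)), ?_, ?_⟩
      · rw [mem_product]
        refine ⟨mem_univ _, ?_⟩
        rw [Pool.Agent.H85.AK.Stmt.digs, mem_image]
        exact ⟨_, mem_univ _, rfl⟩
      · dsimp only
        rw [← Finset.sum_add_distrib, ← Finset.sum_add_distrib]
        apply Finset.sum_congr rfl
        intro j _
        by_cases h : (a j : ℕ) + (b j : ℕ) < M
        · rw [if_pos h, dif_pos h]
          push_cast
          simp
          ring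
        · rw [if_neg h, dif_neg h]
          have h3 : (((a j : ℕ) + (b j : ℕ) - (M - 1) : ℕ) : ℂ) =
              ((a j : ℕ) : ℂ) + ((b j : ℕ) : ℂ) - ((M - 1 : ℕ) : ℂ) := by
            rw [Nat.cast_sub (by omega)]
            push_cast
            ring
          dsimp only
          rw [h3]
          simp
          ring
    calc _ ≤ _ := card_le_card hsub
      _ ≤ ((Finset.univ : Finset (Fin n → Fin 2)) ×ˢ
          Pool.Agent.H85.AK.Stmt.digs r M n).card := card_image_le
      _ = 2 ^ n * (Pool.Agent.H85.AK.Stmt.digs r M n).card := by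
        rw [card_product, card_univ, Fintype.card_fun, Fintype.card_fin, Fintype.card_fin]

end Pool.Agent.H640.AK
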