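import Pool.Agent.H465.OC.StmB

/-! Project OC: task B3 (basis of weakly holomorphic forms). -/

set_option autoImplicit false

namespace Pool.Agent.H640.OCBasis

open Polynomial Pool.Agent.H465.OC
open Pool.Agent.Q279.SC (q4 q6 qD qd z4 z6 zA zB)

section

variable {R : Type} [CommRing R]

/-- leading term `q^(-a)` -/
def Ld (s : LaurentSeries R) (a : ℕ) : Prop :=
  ∃ f : PowerSeries R, PowerSeries.constantCoeff f = 1 ∧
    s = HahnSeries.single (-(a : ℤ)) 1 * ls f

theorem ls_mul (f g : PowerSeries R) : ls (f * g) = ls f * ls g := map_mul _ _ _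

theorem Ld_ls {f : PowerSeries R} (h : PowerSeries.constantCoeff f = 1) : Ld (ls f) 0 := by
  refine ⟨f, h, ?_⟩
  rw [Nat.cast_zero, neg_zero]
  change _ = (1 : LaurentSeries R) * _
  rw [one_mul]

theorem Ld_mul {s t : LaurentSeries R} {a b : ℕ} (hs : Ld s a) (ht : Ld t b) :
    Ld (s * t) (a + b) := by
  obtain ⟨f, hf, rfl⟩ := hs
  obtain ⟨g, hg, rfl⟩ := ht
  refine ⟨f * g, by rw [map_mul, hf, hg, one_mul], ?_⟩
  rw [ls_mul]
  have h1 : (HahnSeries.single (-((a + b : ℕ) : ℤ)) (1 : R) : LaurentSeries R) =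
      HahnSeries.single (-(a : ℤ)) 1 * HahnSeries.single (-(b : ℤ)) 1 := by
    rw [HahnSeries.single_mul_single, one_mul]
    congr 2
    push_cast
    ring
  rw [h1]
  ring

theorem Ld_pow {s : LaurentSeries R} (hs : Ld s 1) (k : ℕ) : Ld (s ^ k) k := by
  induction k with
  | zero =>
    rw [pow_zero]
    have h := Ld_ls (R := R) (f := 1) (map_one _)
    have h2 : ls (1 : PowerSeries R) = 1 := map_one _
    rw [h2] at h
    exact h
  | succ k ih =>
    rw [pow_succ]
    exact Ld_mul ih hs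

theorem ls_coeff (f : PowerSeries R) (n : ℤ) :
    (ls f).coeff n = if n < 0 then 0 else PowerSeries.coeff n.natAbs f :=
  PowerSeries.coeff_coe f n

theorem Ld_top {s : LaurentSeries R} {a : ℕ} (hs : Ld s a) : s.coeff (-(a : ℤ)) = 1 := by
  obtain ⟨f, hf, rfl⟩ := hs
  rw [HahnSeries.coeff_single_mul, sub_self, one_mul, ls_coeff, if_neg (lt_irrefl _),
    Int.natAbs_zero, PowerSeries.coeff_zero_eq_constantCoeff_apply, hf]

theorem Ld_low {s : LaurentSeries R} {a : ℕ} (hs : Ld s a) (n : ℤ) (hn : n < -(a : ℤ)) :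
    s.coeff n = 0 := by
  obtain ⟨f, hf, rfl⟩ := hs
  rw [HahnSeries.coeff_single_mul, ls_coeff, if_pos (by omega), mul_zero]

theorem c4 : PowerSeries.constantCoeff (q4 R) = 1 := by
  unfold q4
  rw [← PowerSeries.coeff_zero_eq_constantCoeff_apply, PowerSeries.coeff_map]
  have h : PowerSeries.coeff 0 z4 = 1 := by
    unfold z4 zA
    simp [PowerSeries.coeff_zero_eq_constantCoeff_apply]
  rw [h, map_one]

theorem c6 : PowerSeries.constantCoeff (q6 R) = 1 := by
  unfold q6
  rw [← PowerSeries.coeff_zero_eq_constantCoeff_apply, PowerSeries.coeff_map]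
  have h : PowerSeries.coeff 0 z6 = 1 := by
    unfold z6 zB
    simp [PowerSeries.coeff_zero_eq_constantCoeff_apply]
  rw [h, map_one]

theorem cb (i : Fin 6) : PowerSeries.constantCoeff (bb R i) = 1 := by
  unfold bb
  fin_cases i
  · exact map_one _
  · exact c4
  · exact c6
  · show PowerSeries.constantCoeff (q4 R ^ 2) = 1
    rw [map_pow, c4, one_pow]
  · show PowerSeries.constantCoeff (q4 R * q6 R) = 1
    rw [map_mul, c4, c6, one_mul]
  · show PowerSeries.constantCoeff (q4 R ^ 2 * q6 R) = 1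
    rw [map_mul, map_pow, c4, c6, one_pow, one_mul]

theorem Ld_Di : Ld (Di R) 1 := by
  refine ⟨PowerSeries.invOfUnit (qd R) 1, ?_, ?_⟩
  · rw [PowerSeries.constantCoeff_invOfUnit, inv_one, Units.val_one]
  · rfl

theorem Ld_jj : Ld (jj R) 1 := by
  unfold jj
  have h1 : ls (q4 R) ^ 3 = ls (q4 R ^ 3) := (map_pow _ _ _).symm
  rw [h1]
  have h2 := Ld_mul (Ld_ls (R := R) (f := q4 R ^ 3) (by rw [map_pow, c4, one_pow])) Ld_Di
  rw [zero_add] at h2
  exact h2

theorem Ld_T (i : Fin 6) (k : ℕ) : Ld (ls (bb R i) * Di R * jj R ^ k) (k + 1) := by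
  have h := Ld_mul (Ld_mul (Ld_ls (cb (R := R) i)) Ld_Di) (Ld_pow Ld_jj k)
  rw [zero_add, add_comm] at h
  exact h

theorem mono_coeff (F : LaurentSeries R) (c : R) (k : ℕ) (n : ℤ) :
    (F * aeval (jj R) (Polynomial.C c * X ^ k)).coeff n = c * (F * jj R ^ k).coeff n := by
  rw [map_mul, aeval_C, map_pow, aeval_X]
  have hC : algebraMap R (LaurentSeries R) c = HahnSeries.single (0 : ℤ) c := by
    rw [HahnSeries.algebraMap_apply']
    simp
  have h : F * (algebraMap R (LaurentSeries R) c * jj R ^ k) =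
      HahnSeries.single (0 : ℤ) c * (F * jj R ^ k) := by
    rw [hC]
    ring
  rw [h, HahnSeries.coeff_single_zero_mul]

theorem exist (i : Fin 6) (k : ℕ) : ∀ c : ℤ → R, (∀ n : ℤ, n < -(k : ℤ) → c n = 0) →
    ∃ P : R[X], ∀ n : ℤ, n < 0 → (ls (bb R i) * Di R * aeval (jj R) P).coeff n = c n := by
  induction k with
  | zero =>
    intro c hc
    refine ⟨0, fun n hn => ?_⟩
    rw [map_zero, mul_zero, HahnSeries.coeff_zero, hc n (by simpa using hn)]
  | succ k ih =>
    intro c hc
    obtain ⟨P, hP⟩ := ih (fun n => c n - c (-((k : ℤ) + 1)) *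
      (ls (bb R i) * Di R * jj R ^ k).coeff n) (by
      intro n hn
      have hT := Ld_T (R := R) i k
      rcases eq_or_lt_of_le (show n ≤ -((k : ℤ) + 1) by omega) with h | h
      · have h1 := Ld_top hT
        push_cast at h1
        rw [h, h1, mul_one, sub_self]
      · have h1 := Ld_low hT n (by push_cast; omega)
        rw [h1, mul_zero, sub_zero]
        exact hc n (by push_cast; omega))
    refine ⟨P + Polynomial.C (c (-((k : ℤ) + 1))) * X ^ k, fun n hn => ?_⟩
    rw [map_add, mul_add, HahnSeries.coeff_add, mono_coeff, hP n hn]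
    ring

theorem unique (i : Fin 6) (g : R[X])
    (hg : ∀ n : ℤ, n < 0 → (ls (bb R i) * Di R * aeval (jj R) g).coeff n = 0) : g = 0 := by
  by_contra hne
  have h1 : (ls (bb R i) * Di R * aeval (jj R) g).coeff (-((g.natDegree : ℤ) + 1)) =
      g.leadingCoeff := by
    have e : aeval (jj R) g = ∑ k ∈ Finset.range (g.natDegree + 1),
        aeval (jj R) (Polynomial.C (g.coeff k) * X ^ k) := by
      conv_lhs => rw [g.as_sum_range_C_mul_X_pow]
      rw [map_sum]
    rw [e, Finset.mul_sum, HahnSeries.coeff_sum, Finset.sum_range_succ,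
      Finset.sum_eq_zero]
    · rw [zero_add, mono_coeff]
      have h2 := Ld_top (Ld_T (R := R) i g.natDegree)
      push_cast at h2
      rw [h2, mul_one]
      rfl
    · intro k hk
      rw [Finset.mem_range] at hk
      rw [mono_coeff, Ld_low (Ld_T (R := R) i k) _ (by push_cast; omega), mul_zero]
  rw [hg _ (by omega)] at h1
  exact hne (leadingCoeff_eq_zero.1 h1.symm)

end

theorem main : LSBasic → Basis := by
  intro _ R _ i _
  refine ⟨fun m _ => ?_, fun g hg => unique i g hg⟩
  obtain ⟨P, hP⟩ := exist (R := R) i m (fun n => if n = -(m : ℤ) then 1 else 0) (by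
    intro n hn
    rw [if_neg (by omega)])
  exact ⟨P, hP⟩

end Pool.Agent.H640.OCBasis
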