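import Pool.Agent.H640.Cov

/-!
# Small closed sets
-/

set_option autoImplicit false
set_option linter.unreachableTactic false
set_option linter.unusedTactic false

namespace Pool.Agent.H640

open Pool.Agent.W868 Pool.Agent.W868.GM Pool.Agent.Y588
open ZFSet (pair)

section

variable {V : Set ZFSet.{0}} (hV : IsZFC V) {μ : ZFSet.{0}} (hμ : μ ∈ V) (hμo : μ.IsOrdinal)
  (hω : ZFSet.omega ⊆ μ)

include hV hμ hμo hω

/-- In a model of ZFC, the union of at most `μ` sets of size at most `μ` has size at most `μ`. -/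
theorem inj_iUnion {x : ZFSet.{0}} (hx : x ∈ V) (h : Inj V x μ) {F : ZFSet.{0} → ZFSet.{0}}
    (hF : DfnF V V fun w : Fin 1 → ZFSet.{0} => F (w 0)) (hF' : ∀ u ∈ x, Inj V (F u) μ) :
    Inj V (ZFSet.sUnion (im F x)) μ := by
  have hM := hV.toIsZF
  have hB := hM.base
  have hU : ZFSet.sUnion (im F x) ∈ V := hM.union _ (hM.im_mem hx hF)
  obtain ⟨h, hh, hi⟩ := h
  obtain ⟨c, hc, -, hc'⟩ := helper797_it.PG0.exists_choice hV hx
    (F := fun u => ZFSet.sep (fun f => IsInj (F u) μ f) (pwM V (ZFSet.prod (F u) μ))) (by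
      refine hM.sep' (Q := fun f w => IsInj (F (w 0)) μ f)
        (pwM' hM (hM.prod' hF (DfnF.const hμ))) ?_
      exact hB.isInj' (DfnF.comp1 (f := F) hF (DfnF.proj 1)) (DfnF.const hμ) (DfnF.proj 0)) (by
      intro u hu
      obtain ⟨f, hf, hfi⟩ := hF' u hu
      exact ⟨f, ZFSet.mem_sep.2 ⟨mem_pwM.2 ⟨hf, hfi.1.1⟩, hfi⟩⟩)
  have hci : ∀ u ∈ x, IsInj (F u) μ (ap c u) := fun u hu => (ZFSet.mem_sep.1 (hc' u hu)).2
  set s : ZFSet.{0} → ZFSet.{0} := fun y => lo V fun ξ => ∃ u ∈ x, pair u ξ ∈ h ∧ y ∈ F u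
    with hs
  have hsd : DfnF V V fun w : Fin 1 → ZFSet.{0} => s (w 0) := by
    refine hM.lo' (Q := fun ξ w => ∃ u ∈ x, pair u ξ ∈ h ∧ w 0 ∈ F u) ?_
    apply hB.bex (DfnF.const hx)
    refine Dfn.and ?_ ?_
    · exact Dfn.mem (hB.pair' (DfnF.proj 0) (DfnF.proj 1)) (DfnF.const hh)
    · exact Dfn.mem (DfnF.proj 2) (DfnF.comp1 (f := F) hF (DfnF.proj 0))
  have hss : ∀ y ∈ ZFSet.sUnion (im F x), ∃ u ∈ x, pair u (s y) ∈ h ∧ y ∈ F u := by
    intro y hy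
    obtain ⟨z, hz, hyz⟩ := ZFSet.mem_sUnion.1 hy
    obtain ⟨u, hu, rfl⟩ := mem_im.1 hz
    obtain ⟨b, hb, hb'⟩ := fun_exists hi.1 hu
    exact (lo_spec (M := V) (P := fun ξ => ∃ u ∈ x, pair u ξ ∈ h ∧ y ∈ F u)
      ⟨b, hM.trans _ hμ _ hb, hμo.mem hb, u, hu, hb', hyz⟩).2.2
  have h1 : Inj V (ZFSet.sUnion (im F x)) (ZFSet.prod μ μ) := by
    refine Inj.of_rel hM hU (hM.prod_mem hμ hμ) (R := fun y w => ∃ u ∈ x, ∃ b ∈ μ,
      pair u (s y) ∈ h ∧ pair y b ∈ ap c u ∧ w = pair (s y) b) ?_ ?_ ?_ ?_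
    · apply hB.bex (DfnF.const hx)
      apply hB.bex (DfnF.const hμ)
      have hs3 : DfnF V V fun w : Fin 4 → ZFSet.{0} => s (w 2) :=
        DfnF.comp1 (f := s) hsd (DfnF.proj 2)
      refine (Dfn.mem (hB.pair' (DfnF.proj 1) hs3) (DfnF.const hh)).and
        ((Dfn.mem (hB.pair' (DfnF.proj 2) (DfnF.proj 0))
          (hM.ap' (DfnF.const hc) (DfnF.proj 1))).and ?_)
      exact Dfn.eq (DfnF.proj 3) (hB.pair' hs3 (DfnF.proj 0))
    · intro y hy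
      obtain ⟨u, hu, h2, h3⟩ := hss y hy
      obtain ⟨b, hb, hb'⟩ := fun_exists (hci u hu).1 h3
      exact ⟨pair (s y) b, ZFSet.pair_mem_prod.2 ⟨(ZFSet.pair_mem_prod.1 (hi.1.1 h2)).2, hb⟩,
        u, hu, b, hb, h2, hb', rfl⟩
    · rintro y hy _ - _ - ⟨u, hu, b, hb, h2, h3, rfl⟩ ⟨u', hu', b', hb', h4, h5, rfl⟩
      have h6 := hi.2 _ _ _ h2 h4
      subst h6
      rw [fun_unique (hci u hu).1 h3 h5]
    · rintro y hy y' hy' _ - ⟨u, hu, b, hb, h2, h3, rfl⟩ ⟨u', hu', b', hb', h4, h5, h6⟩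
      obtain ⟨h7, h8⟩ := ZFSet.pair_inj.1 h6
      subst h8
      rw [← h7] at h4
      have h9 := hi.2 _ _ _ h2 h4
      subst h9
      exact (hci u hu).2 _ _ _ h3 h5
  exact Inj.trans hM hU hμ h1 (sq_inj hM hμ hμo hω)

omit hV hμo hω in
theorem inj_prod2 (hM : IsZF V) (hμo : μ.IsOrdinal) (hω : ZFSet.omega ⊆ μ) {x y : ZFSet.{0}}
    (hx : x ∈ V) (hy : y ∈ V) (h1 : Inj V x μ) (h2 : Inj V y μ) : Inj V (ZFSet.prod x y) μ :=
  Inj.trans hM (hM.prod_mem hx hy) hμ (Inj.prod hM hx hy hμ hμ h1 h2) (sq_inj hM hμ hμo hω)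

/-- A small set closed under a function. -/
theorem exists_clo {P K S : ZFSet.{0}} (hP : P ∈ V) (hK : K ∈ V) (hS : S ∈ V)
    (h1 : Inj V P μ) (h2 : Inj V S μ) :
    ∃ N ∈ V, S ⊆ N ∧ Inj V N μ ∧ ∀ i ∈ ZFSet.omega, ∀ a ∈ N, ∀ b ∈ N, ∀ p ∈ P,
      ap K (pair (pair i (pair a b)) p) ∈ N := by
  have hM := hV.toIsZF
  have hB := hM.base
  have hωM := hM.infinity
  set T : ZFSet.{0} → ZFSet.{0} := fun Z => Z ∪
    im (fun q => ap K q) (ZFSet.prod (ZFSet.prod ZFSet.omega (ZFSet.prod Z Z)) P) with hTdef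
  have hT : DfnF V V fun w : Fin 1 → ZFSet.{0} => T (w 0) := by
    refine hB.union' (DfnF.proj 0) (hM.im' (h := fun q _ => ap K q) ?_ ?_)
    · exact hM.prod' (hM.prod' (DfnF.const hωM) (hM.prod' (DfnF.proj 0) (DfnF.proj 0)))
        (DfnF.const hP)
    · exact hM.ap' (DfnF.const hK) (DfnF.proj 0)
  have hTs : ∀ Z ∈ V, Inj V Z μ → Inj V (T Z) μ := by
    intro Z hZ h3
    have h4 : ZFSet.prod (ZFSet.prod ZFSet.omega (ZFSet.prod Z Z)) P ∈ V :=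
      hM.prod_mem (hM.prod_mem hωM (hM.prod_mem hZ hZ)) hP
    have h5 : Inj V (ZFSet.prod (ZFSet.prod ZFSet.omega (ZFSet.prod Z Z)) P) μ :=
      inj_prod2 hμ hM hμo hω (hM.prod_mem hωM (hM.prod_mem hZ hZ)) hP
        (inj_prod2 hμ hM hμo hω hωM (hM.prod_mem hZ hZ) (Inj.of_subset hM hωM hμ hω)
          (inj_prod2 hμ hM hμo hω hZ hZ h3 h3)) h1
    have h6 : DfnF V V fun w : Fin 1 → ZFSet.{0} => ap K (w 0) :=
      hM.ap' (DfnF.const hK) (DfnF.proj 0)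
    exact helper797_it.PG3.inj_union2 hV hμ hμo hω hZ (hM.im_mem h4 h6) h3
      (Inj.image hM h4 hμ hμo h5 (h := fun q => ap K q) h6)
  have hmono : ∀ Z Z' : ZFSet.{0}, Z ⊆ Z' → T Z ⊆ T Z' := by
    intro Z Z' h y hy
    rcases ZFSet.mem_union.1 hy with h3 | h3
    · exact ZFSet.mem_union.2 (Or.inl (h h3))
    · refine ZFSet.mem_union.2 (Or.inr ?_)
      obtain ⟨q, hq, rfl⟩ := mem_im.1 h3
      refine mem_im.2 ⟨q, ?_, rfl⟩
      obtain ⟨a, ha, p, hp, rfl⟩ := ZFSet.mem_prod.1 hq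
      obtain ⟨i, hi, b, hb, rfl⟩ := ZFSet.mem_prod.1 ha
      obtain ⟨c, hc, d, hd, rfl⟩ := ZFSet.mem_prod.1 hb
      exact ZFSet.pair_mem_prod.2 ⟨ZFSet.pair_mem_prod.2 ⟨hi, ZFSet.pair_mem_prod.2 ⟨h hc, h hd⟩⟩,
        hp⟩
  have hI : ∀ z ∈ V, itr T S z ∈ V := fun z hz => itr_mem_M hM hS hz hT
  have hsm : ∀ n : ℕ, Inj V (itr T S (nat n)) μ := by
    intro n
    induction n with
    | zero =>
      have h3 : itr T S (nat 0) ⊆ S := by
        intro y hy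
        rcases mem_itr.1 hy with h | ⟨u, hu, -⟩
        · exact h
        · exact absurd hu (ZFSet.notMem_empty _)
      exact Inj.trans hM (hI _ (hM.nat_mem 0)) hμ
        (Inj.of_subset hM (hI _ (hM.nat_mem 0)) hS h3) h2
    | succ n ih =>
      have h3 : itr T S (nat (n + 1)) ⊆ T (itr T S (nat n)) := by
        intro y hy
        rcases mem_itr.1 hy with h | ⟨u, hu, hy'⟩
        · exact ZFSet.mem_union.2 (Or.inl (itr_base h))
        · have h4 : u ∈ ZFSet.omega := nat_subset_omega hu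
          obtain ⟨k, rfl⟩ := mem_omega_iff.1 h4
          have h5 : k ≤ n := by
            have := mem_nat_iff.1 hu
            omega
          exact hmono _ _ (itr_mono (nat_subset h5)) hy'
      have h4 : T (itr T S (nat n)) ∈ V :=
        hT.1 (fun _ => itr T S (nat n)) fun _ => hI _ (hM.nat_mem n)
      exact Inj.trans hM (hI _ (hM.nat_mem _)) hμ
        (Inj.of_subset hM (hI _ (hM.nat_mem _)) h4 h3) (hTs _ (hI _ (hM.nat_mem n)) ih)
  refine ⟨itr T S ZFSet.omega, hI _ hωM, itr_base, ?_, ?_⟩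
  · have h3 : Inj V (ZFSet.sUnion (im (itr T S) ZFSet.omega)) μ := by
      refine inj_iUnion hV hμ hμo hω hωM (Inj.of_subset hM hωM hμ hω) (dfn_itr hM hS hT) ?_
      intro u hu
      obtain ⟨n, rfl⟩ := mem_omega_iff.1 hu
      exact hsm n
    refine Inj.trans hM (hI _ hωM) hμ (Inj.of_subset hM (hI _ hωM)
      (hM.union _ (hM.im_mem hωM (dfn_itr hM hS hT))) ?_) h3
    intro y hy
    obtain ⟨k, hk⟩ := mem_itr_omega hy
    exact ZFSet.mem_sUnion.2 ⟨_, mem_im.2 ⟨nat k, nat_mem_omega k, rfl⟩, hk⟩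
  · intro i hi a ha b hb p hp
    obtain ⟨k, hk⟩ := mem_itr_omega ha
    obtain ⟨l, hl⟩ := mem_itr_omega hb
    have h3 : itr T S (nat k) ⊆ itr T S (nat (max k l)) := itr_mono (nat_subset (le_max_left _ _))
    have h4 : itr T S (nat l) ⊆ itr T S (nat (max k l)) :=
      itr_mono (nat_subset (le_max_right _ _))
    refine itr_step (nat_mem_omega (max k l)) (ZFSet.mem_union.2 (Or.inr (mem_im.2
      ⟨_, ?_, rfl⟩)))
    exact ZFSet.pair_mem_prod.2 ⟨ZFSet.pair_mem_prod.2 ⟨hi, ZFSet.pair_mem_prod.2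
      ⟨h3 hk, h4 hl⟩⟩, hp⟩

end

end Pool.Agent.H640
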