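import Pool.Agent.H640.Ext
import Pool.Graph.R_seed8.Y588.Fnl

/-!
# A function of the extension is covered by a function of the ground model
-/

set_option autoImplicit false
set_option linter.unreachableTactic false
set_option linter.unusedTactic false

namespace Pool.Agent.H640

open Pool.Agent.W868 Pool.Agent.W868.GM Pool.Agent.Y588
open ZFSet (pair)

/-- Let `E` be a single-valued subset of `D × Δ` in the extension. Then there is in the ground
model a single-valued subset `K` of `(D × P) × Δ` that covers `E`. -/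
theorem cover {M : Set ZFSet.{0}} (hM : IsZF M) {P Le : ZFSet.{0}}
    (hP : IsForcing M P Le) {G : ZFSet.{0}} (hG : IsGeneric M P Le G) {D Δ E : ZFSet.{0}}
    (hD : D ∈ M) (hΔ : Δ ∈ M) (hE : E ∈ ext M G) (hED : E ⊆ ZFSet.prod D Δ) (hEf : Fu E) :
    ∃ K ∈ M, K ⊆ ZFSet.prod (ZFSet.prod D P) Δ ∧ Fu K ∧
      ∀ d c, pair d c ∈ E → ∃ p ∈ P, pair (pair d p) c ∈ K := by
  obtain ⟨τ, hτ, rfl⟩ := hE
  obtain ⟨t, htG, htP, htM, -⟩ := top_mem hM hP hG
  have hB := hM.base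
  have hPM := hP.mem
  have hLM := hP.le_mem
  have hck : ∀ {n : ℕ} {F : (Fin n → ZFSet.{0}) → ZFSet.{0}}, DfnF M M F →
      DfnF M M fun v => chk t (F v) := fun hF => DfnF.comp1 (f := chk t) (dfn_chk hM htM) hF
  -- the uniqueness clause
  let U : ZFSet.{0} → ZFSet.{0} → ZFSet.{0} → Prop := fun d c r =>
    ∀ q ∈ P, pair q r ∈ Le → ∀ c' ∈ Δ, Qmem P Le (chk t (pair d c')) τ q → c' = c
  have hU : ∀ {n : ℕ} {F H K : (Fin n → ZFSet.{0}) → ZFSet.{0}}, DfnF M M F → DfnF M M H →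
      DfnF M M K → Dfn M M fun v => U (F v) (H v) (K v) := by
    intro n F H K hF hH hK
    refine hB.ball (Q := fun q v => pair q (K v) ∈ Le → ∀ c' ∈ Δ,
      Qmem P Le (chk t (pair (F v) c')) τ q → c' = H v) (DfnF.const hPM) ?_
    refine (Dfn.mem (hB.pair' (DfnF.proj 0) hK.tail) (DfnF.const hLM)).imp ?_
    refine hB.ball (Q := fun c' w => Qmem P Le (chk t (pair (F (Fin.tail w)) c')) τ (w 0) →
      c' = H (Fin.tail w)) (DfnF.const hΔ) ?_
    refine Dfn.imp ?_ (Dfn.eq (DfnF.proj 0) hH.tail.tail)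
    exact dfn_qmem hM hPM hLM (hck (hB.pair' hF.tail.tail (DfnF.proj 0))) (DfnF.const hτ)
      (DfnF.proj 1)
  refine ⟨_, hM.sep_mem (x := ZFSet.prod (ZFSet.prod D P) Δ) (Q := fun z =>
    Qmem P Le (chk t (pair (fs (fs z)) (sn z))) τ (sn (fs z)) ∧
      U (fs (fs z)) (sn z) (sn (fs z))) ?_ (hM.prod_mem (hM.prod_mem hD hPM) hΔ),
    fun z hz => (ZFSet.mem_sep.1 hz).1, ?_, ?_⟩
  · refine Dfn.and ?_ (hU (hM.fs' (hM.fs' (DfnF.proj 0))) (hM.sn' (DfnF.proj 0))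
      (hM.sn' (hM.fs' (DfnF.proj 0))))
    exact dfn_qmem hM hPM hLM (hck (hB.pair' (hM.fs' (hM.fs' (DfnF.proj 0)))
      (hM.sn' (DfnF.proj 0)))) (DfnF.const hτ) (hM.sn' (hM.fs' (DfnF.proj 0)))
  · intro a b c hb hc
    obtain ⟨h1, h2, h3⟩ := ZFSet.mem_sep.1 hb
    obtain ⟨h4, h5, h6⟩ := ZFSet.mem_sep.1 hc
    obtain ⟨h7, h8⟩ := ZFSet.pair_mem_prod.1 h4
    obtain ⟨d, -, p, hp, rfl⟩ := ZFSet.mem_prod.1 h7
    simp only [fs_pair, sn_pair] at h2 h3 h5 h6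
    exact (h3 p hp (hP.refl p hp) c h8 h5).symm
  · intro d c hdc
    obtain ⟨hd, hc⟩ := ZFSet.pair_mem_prod.1 (hED hdc)
    have hdM := hM.trans _ hD _ hd
    have hcM := hM.trans _ hΔ _ hc
    have hpr : ∀ c' ∈ Δ, chk t (pair d c') ∈ M := fun c' hc' =>
      chk_mem hM htM (hM.pair_mem hdM (hM.trans _ hΔ _ hc'))
    have h1 := hdc
    rw [← ev_chk htG (pair d c), ev_mem_iff hM hP hG (hpr c hc) hτ] at h1
    obtain ⟨p, hp, h1⟩ := h1
    have hpP := hG.sub hp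
    obtain ⟨r, hr, hrp, h2⟩ := gen_below hM hP hG (p := p)
      (Q := fun r => U d c r ∨ ∃ c' ∈ Δ, c' ≠ c ∧ Qmem P Le (chk t (pair d c')) τ r) (by
        refine (hU (DfnF.const hdM) (DfnF.const hcM) (DfnF.proj 0)).or ?_
        refine hB.bex (Q := fun c' v => c' ≠ c ∧ Qmem P Le (chk t (pair d c')) τ (v 0))
          (DfnF.const hΔ) ?_
        refine (Dfn.eq (DfnF.proj 0) (DfnF.const hcM)).not.and ?_
        exact dfn_qmem hM hPM hLM (hck (hB.pair' (DfnF.const hdM) (DfnF.proj 0)))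
          (DfnF.const hτ) (DfnF.proj 1)) hp (by
        intro q hq hqp
        by_cases h : U d c q
        · exact ⟨q, hq, hP.refl q hq, Or.inl h⟩
        · simp only [U, not_forall] at h
          obtain ⟨q', hq', hqq, c', hc', h3, h4⟩ := h
          exact ⟨q', hq', hqq, Or.inr ⟨c', hc', h4, h3⟩⟩)
    rcases h2 with h2 | ⟨c', hc', h3, h4⟩
    · have hrP := hG.sub hr
      refine ⟨r, hrP, ZFSet.mem_sep.2 ⟨ZFSet.pair_mem_prod.2 ⟨ZFSet.pair_mem_prod.2 ⟨hd, hrP⟩,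
        hc⟩, ?_, ?_⟩⟩
      · simp only [fs_pair, sn_pair]
        exact Qmem.mono hP hpP h1 hrP hrp
      · simp only [fs_pair, sn_pair]
        exact h2
    · exfalso
      have h5 := (ev_mem_iff hM hP hG (hpr c' hc') hτ).2 ⟨r, hr, h4⟩
      rw [ev_chk htG] at h5
      exact h3 (hEf _ _ _ h5 hdc)

end Pool.Agent.H640
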