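import Pool.Agent.H416.DT.Tasks

/-!
# DT2: the derivation `X d/dX` of the field of rational functions
-/

set_option autoImplicit false

namespace Pool.Agent.H640.DT2

open Polynomial Pool.Agent.H416.DT

universe u

section

variable {k E : Type u} [Field k] [CharZero k] [Field E] [Algebra k[X] E] [IsFractionRing k[X] E]

variable (k E) in
/-- the ring homomorphism `P ↦ P + ε X P'` -/
noncomputable def phi : k[X] →+* TrivSqZeroExt E E :=
  eval₂RingHom (((TrivSqZeroExt.inlHom E E).comp (algebraMap k[X] E)).comp C)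
    (TrivSqZeroExt.inl (algebraMap k[X] E X) + TrivSqZeroExt.inr (algebraMap k[X] E X))

theorem phi_C (c : k) : phi k E (C c) = TrivSqZeroExt.inl (algebraMap k[X] E (C c)) := by
  unfold phi
  rw [coe_eval₂RingHom, eval₂_C]
  rfl

theorem phi_X : phi k E X = TrivSqZeroExt.inl (algebraMap k[X] E X) +
    TrivSqZeroExt.inr (algebraMap k[X] E X) := by
  unfold phi
  rw [coe_eval₂RingHom, eval₂_X]

theorem fst_phi (P : k[X]) : (phi k E P).fst = algebraMap k[X] E P := by
  have h : ((TrivSqZeroExt.fstHom E E E).toRingHom).comp (phi k E) = algebraMap k[X] E := by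
    apply Polynomial.ringHom_ext
    · intro c
      show (phi k E (C c)).fst = _
      rw [phi_C, TrivSqZeroExt.fst_inl]
    · show (phi k E X).fst = _
      rw [phi_X, TrivSqZeroExt.fst_add, TrivSqZeroExt.fst_inl, TrivSqZeroExt.fst_inr, add_zero]
  exact congrArg (fun f : k[X] →+* E => f P) h

variable (k E) in
/-- the extension to the field of fractions -/
noncomputable def Phi : E →+* TrivSqZeroExt E E :=
  IsLocalization.lift (M := nonZeroDivisors k[X]) (g := phi k E) (by
    intro y
    rw [TrivSqZeroExt.isUnit_iff_isUnit_fst, fst_phi]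
    exact IsLocalization.map_units E y)

theorem Phi_alg (P : k[X]) : Phi k E (algebraMap k[X] E P) = phi k E P :=
  IsLocalization.lift_eq _ _

theorem fst_Phi (a : E) : (Phi k E a).fst = a := by
  have h : ((TrivSqZeroExt.fstHom E E E).toRingHom).comp (Phi k E) = RingHom.id E := by
    apply IsLocalization.ringHom_ext (nonZeroDivisors k[X])
    refine RingHom.ext fun P => ?_
    show (Phi k E (algebraMap k[X] E P)).fst = algebraMap k[X] E P
    rw [Phi_alg, fst_phi]
  exact congrArg (fun f : E →+* E => f a) h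

variable (k E) in
/-- the derivation -/
noncomputable def D : Derivation ℤ E E :=
  Derivation.mk' ((TrivSqZeroExt.sndHom E E).toAddMonoidHom.comp
    (Phi k E).toAddMonoidHom).toIntLinearMap (by
      intro a b
      show (Phi k E (a * b)).snd = a • (Phi k E b).snd + b • (Phi k E a).snd
      rw [map_mul, TrivSqZeroExt.snd_mul, fst_Phi, fst_Phi, op_smul_eq_smul])

theorem D_apply (a : E) : D k E a = (Phi k E a).snd := rfl

theorem D_X : D k E (algebraMap k[X] E X) = algebraMap k[X] E X := by
  rw [D_apply, Phi_alg, phi_X, TrivSqZeroExt.snd_add, TrivSqZeroExt.snd_inl,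
    TrivSqZeroExt.snd_inr, zero_add]

theorem D_C (c : k) : D k E (algebraMap k[X] E (C c)) = 0 := by
  rw [D_apply, Phi_alg, phi_C, TrivSqZeroExt.snd_inl]

theorem D_alg (P : k[X]) :
    D k E (algebraMap k[X] E P) = algebraMap k[X] E (X * derivative P) := by
  induction P using Polynomial.induction_on with
  | C c => rw [D_C, derivative_C, mul_zero, map_zero]
  | add p q hp hq => rw [map_add, map_add, hp, hq, derivative_add, mul_add, map_add]
  | monomial n c h =>
    have e : derivative (C c * X ^ n * X) = derivative (C c * X ^ n) * X + C c * X ^ n := by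
      rw [derivative_mul (f := C c * X ^ n), derivative_X, mul_one]
    rw [pow_succ, ← mul_assoc, e, map_mul, Derivation.leibniz, h, D_X, smul_eq_mul, smul_eq_mul,
      ← map_mul, ← map_mul, ← map_add]
    apply congrArg
    ring

theorem no_one (a : E) : D k E a ≠ 1 := by
  intro ha
  obtain ⟨P, Q, hPQ, hQ⟩ : ∃ P Q : k[X], IsCoprime P Q ∧ Q ≠ 0 ∧
      a * algebraMap k[X] E Q = algebraMap k[X] E P := by
    refine ⟨IsFractionRing.num k[X] a, IsFractionRing.den k[X] a, ?_, ?_, ?_⟩
    · exact (IsFractionRing.num_den_reduced k[X] a).isCoprime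
    · exact nonZeroDivisors.ne_zero (IsFractionRing.den k[X] a).2
    · have h := IsFractionRing.mk'_num_den k[X] a
      have h2 := IsLocalization.mk'_spec E (IsFractionRing.num k[X] a) (IsFractionRing.den k[X] a)
      rw [h] at h2
      exact h2
  obtain ⟨hQ0, hPa⟩ := hQ
  have h1 := congrArg (D k E) hPa
  rw [Derivation.leibniz, D_alg, D_alg, ha, smul_eq_mul, smul_eq_mul, mul_one] at h1
  have h2 : P * (X * derivative Q) + Q * Q = X * derivative P * Q := by
    apply IsFractionRing.injective k[X] E
    rw [map_add, map_mul (algebraMap k[X] E) P, map_mul (algebraMap k[X] E) Q Q,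
      map_mul (algebraMap k[X] E) (X * derivative P), ← h1, ← hPa]
    ring
  have hX : X ∣ Q := by
    have h3 : (X : k[X]) ∣ Q * Q := by
      refine ⟨derivative P * Q - P * derivative Q, ?_⟩
      linear_combination h2
    exact (prime_X.dvd_or_dvd h3).elim id id
  have hP : P.coeff 0 ≠ 0 := by
    intro h3
    have h4 := hPQ.isUnit_of_dvd' (X_dvd_iff.2 h3) hX
    exact not_isUnit_X h4
  obtain ⟨R, hR, hR0⟩ := exists_eq_pow_rootMultiplicity_mul_and_not_dvd Q hQ0 0
  rw [C_0, sub_zero] at hR hR0
  set s := rootMultiplicity 0 Q with hs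
  have hRc : R.coeff 0 ≠ 0 := fun h3 => hR0 (X_dvd_iff.2 h3)
  obtain ⟨t, ht⟩ : ∃ t, s = t + 1 := by
    apply Nat.exists_eq_succ_of_ne_zero
    intro h3
    rw [h3, pow_zero, one_mul] at hR
    rw [← hR] at hR0
    exact hR0 hX
  rw [ht] at hR
  have h5 : derivative Q = (t + 1 : k[X]) * X ^ t * R + X ^ (t + 1) * derivative R := by
    rw [hR, derivative_mul, derivative_X_pow]
    push_cast
    simp
  have h6 : X ^ (t + 1) * (P * ((t + 1 : k[X]) * R + X * derivative R) + X ^ (t + 1) * (R * R))
      = X ^ (t + 1) * (X * derivative P * R) := by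
    rw [h5, hR] at h2
    linear_combination h2
  have h7 := mul_left_cancel₀ (pow_ne_zero (t + 1) X_ne_zero) h6
  have h8 := congrArg (fun f : k[X] => f.eval 0) h7
  simp only [eval_add, eval_mul, eval_X, eval_pow, eval_natCast, eval_one, zero_mul, mul_zero,
    add_zero, pow_succ] at h8
  rw [← coeff_zero_eq_eval_zero, ← coeff_zero_eq_eval_zero] at h8
  have h9 : (t : k) + 1 ≠ 0 := by exact_mod_cast Nat.succ_ne_zero t
  exact (mul_ne_zero hP (mul_ne_zero h9 hRc)) h8

end

theorem DT2_holds : S_DT2.{u} := by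
  intro k E _ _ _ _ _
  exact ⟨D k E, D_X, D_C, no_one⟩

end Pool.Agent.H640.DT2
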