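import Pool.Agent.H416.DT.Tasks

/-!
# DT3: derivations on finite extensions
-/

set_option autoImplicit false

namespace Pool.Agent.H640.DT3

open Polynomial Pool.Agent.H416.DT

universe u

theorem exists_one {F : Type u} [Field F] [CharZero F] (D : Derivation ℤ F F) (a : F) (n : ℕ)
    (hn : n ≠ 0) (h : D a + n = 0) : ∃ b : F, D b = 1 := by
  have hn' : (n : F) ≠ 0 := Nat.cast_ne_zero.2 hn
  refine ⟨-(a / n), ?_⟩
  have h1 : n • (-(a / n)) = -a := by
    rw [nsmul_eq_mul]
    field_simp
  have h2 : n • D (-(a / n)) = -D a := by
    rw [← map_nsmul, h1, map_neg]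
  rw [nsmul_eq_mul] at h2
  have h3 : (n : F) * D (-(a / n)) = n * 1 := by
    rw [h2, mul_one]
    linear_combination -h
  exact mul_left_cancel₀ hn' h3

theorem DT3_holds : S_DT3.{u} := by
  intro F L _ _ _ _ _ D hD
  letI : Differential F := ⟨D⟩
  letI : Differential L := Differential.differentialFiniteDimensional F L
  haveI : DifferentialAlgebra F L := Differential.differentialAlgebraFiniteDimensional
  refine ⟨Differential.deriv, fun a => DifferentialAlgebra.deriv_algebraMap a, fun h hh => ?_⟩
  have hint : IsIntegral F h := Algebra.IsIntegral.isIntegral h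
  have h1 := Differential.deriv_aeval_eq h (minpoly F h)
  rw [minpoly.aeval, map_zero, hh, mul_one, ← map_add] at h1
  have hmon := minpoly.monic hint
  set m := minpoly F h with hm
  have hpos : 0 < m.natDegree := minpoly.natDegree_pos hint
  have hco : ∀ i, (Differential.mapCoeffs m + derivative m).coeff i
      = D (m.coeff i) + m.coeff (i + 1) * (i + 1) := by
    intro i
    rw [coeff_add, Differential.coeff_mapCoeffs, coeff_derivative]
    rfl
  have hq : Differential.mapCoeffs m + derivative m = 0 := by
    by_contra hne
    have hdvd : m ∣ Differential.mapCoeffs m + derivative m := minpoly.dvd F h h1.symm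
    have hdeg := degree_le_of_dvd hdvd hne
    have hlt : (Differential.mapCoeffs m + derivative m).degree < m.natDegree := by
      rw [degree_lt_iff_coeff_zero]
      intro i hi
      rw [hco, coeff_eq_zero_of_natDegree_lt (lt_of_le_of_lt hi (Nat.lt_succ_self i)), zero_mul,
        add_zero]
      rcases hi.lt_or_eq with h2 | h2
      · rw [coeff_eq_zero_of_natDegree_lt h2, map_zero]
      · rw [← h2, hmon.coeff_natDegree, Derivation.map_one_eq_zero]
    rw [degree_eq_natDegree hmon.ne_zero] at hdeg
    exact absurd hlt (not_lt.2 hdeg)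
  have h2 := hco (m.natDegree - 1)
  rw [hq, coeff_zero, Nat.sub_add_cancel hpos, hmon.coeff_natDegree, one_mul] at h2
  have h3 : D (m.coeff (m.natDegree - 1)) + (m.natDegree : ℕ) = 0 := by
    rw [h2]
    congr 1
    have : ((m.natDegree - 1 + 1 : ℕ) : F) = (m.natDegree : F) := by
      rw [Nat.sub_add_cancel hpos]
    rw [← this]
    push_cast
    ring
  obtain ⟨b, hb⟩ := exists_one D _ _ hpos.ne' h3
  exact hD b hb

end Pool.Agent.H640.DT3
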