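import Pool.Graph.R_seed8.W868.GM.Dfs
import Pool.Graph.R_seed8.Y588.SDefs

/-!
# Elementary substructures of `(H(χ), ∈, R, B)`: the definitions

`Pool.Graph.R_seed8.W868.Defs`, `Pool.Graph.R_seed8.W868.GM.Dfs` and
`Pool.Graph.R_seed8.Y588.SDefs` contain the definitions of transitive models of ZFC (`IsZFC`),
of forcing notions and generic extensions (`IsForcing`, `IsGeneric`, `ext`), of `H_χ` of a model
(`HM`) and of the constructible hierarchy (`LA`).
-/

set_option autoImplicit false

namespace Pool.Agent.H640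

open Pool.Agent.W868 Pool.Agent.W868.GM Pool.Agent.Y588
open ZFSet (pair)

/-- Formulas of the first order language with the membership relation, one further binary
relation and one unary predicate, with free variables `0, ..., n - 1`. In `ex φ` the variable
`0` of `φ` is bound, and the variable `i + 1` of `φ` is the variable `i` of `ex φ`. -/
inductive SFml : ℕ → Type
  | mem {n : ℕ} (i j : Fin n) : SFml n
  | eq {n : ℕ} (i j : Fin n) : SFml n
  | rel {n : ℕ} (i j : Fin n) : SFml n
  | prd {n : ℕ} (i : Fin n) : SFml n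
  | neg {n : ℕ} (φ : SFml n) : SFml n
  | and {n : ℕ} (φ ψ : SFml n) : SFml n
  | ex {n : ℕ} (φ : SFml (n + 1)) : SFml n

/-- Truth in the structure `(X, ∈, R, B)`: the binary relation is the set `R` of pairs, and the
unary predicate is membership in `B`. -/
def SSat (R : ZFSet.{0}) (B X : Set ZFSet.{0}) : {n : ℕ} → SFml n → (Fin n → ZFSet.{0}) → Prop
  | _, .mem i j, v => v i ∈ v j
  | _, .eq i j, v => v i = v j
  | _, .rel i j, v => pair (v i) (v j) ∈ R
  | _, .prd i, v => v i ∈ B
  | _, .neg φ, v => ¬ SSat R B X φ v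
  | _, .and φ ψ, v => SSat R B X φ v ∧ SSat R B X ψ v
  | _, .ex φ, v => ∃ a ∈ X, SSat R B X φ (Fin.cons a v)

/-- `(N, ∈, R, B)` is an elementary substructure of `(X, ∈, R, B)`. -/
def IsElem (R : ZFSet.{0}) (B N X : Set ZFSet.{0}) : Prop :=
  N ⊆ X ∧ ∀ (n : ℕ) (φ : SFml n) (v : Fin n → ZFSet.{0}), (∀ i, v i ∈ N) →
    (SSat R B N φ v ↔ SSat R B X φ v)

/-- The constructible universe of `M`: the union of the levels `L_α`, `α ∈ M` an ordinal. -/
def LL (M : Set ZFSet.{0}) : Set ZFSet.{0} :=
  {x | ∃ α : Ordinal.{0}, α.toZFSet ∈ M ∧ x ∈ LA ∅ α}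

end Pool.Agent.H640
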