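import Pool.Agent.H640.Tre

/-!
# The tree adds no new bounded subsets over `L`
-/

set_option autoImplicit false
set_option linter.unreachableTactic false
set_option linter.unusedTactic false

namespace Pool.Agent.H640

open Pool.Agent.W868 Pool.Agent.W868.GM Pool.Agent.Y588
open ZFSet (pair)

/-- Let `κ` be an ordinal of the model `L` of ZF with a definable well-order, such that `κ` is
regular with respect to the functions in `L`. Then the tree of the
bounded subsets of `κ` adds no new subsets of the ordinals below `κ`. -/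
theorem dist {L : Set ZFSet.{0}} (hL : IsZF L) {e : ZFSet.{0} → ZFSet.{0}} (hg : GC L e)
    {κ : ZFSet.{0}} (hκL : κ ∈ L) (hκo : κ.IsOrdinal) (hne : ∅ ∈ κ)
    (hreg : ∀ β ∈ κ, ∀ F : ZFSet.{0} → ZFSet.{0},
      (DfnF L L fun w : Fin 1 → ZFSet.{0} => F (w 0)) → (∀ ξ ∈ β, F ξ ∈ κ) →
        ZFSet.sUnion (im F β) ∈ κ)
    {G : ZFSet.{0}} (hG : IsGeneric L (Tr L κ) (TLe (Tr L κ)) G) {β x : ZFSet.{0}} (hβ : β ∈ κ)
    (hx : x ∈ ext L G) (hxβ : x ⊆ β) : x ∈ L := by
  have hB := hL.base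
  have hP := isForcing_Tr hL hκL hκo hne
  have hPM := hP.mem
  have hLM := hP.le_mem
  obtain ⟨τ, hτ, rfl⟩ := hx
  obtain ⟨t, htG, htP, htM, -⟩ := top_mem hL hP hG
  have hβL := hL.trans _ hκL _ hβ
  have hck : ∀ {n : ℕ} {F : (Fin n → ZFSet.{0}) → ZFSet.{0}}, DfnF L L F →
      DfnF L L fun v => chk t (F v) := fun hF => DfnF.comp1 (f := chk t) (dfn_chk hL htM) hF
  -- `q` decides whether `ξ` is in the new set
  let De : ZFSet.{0} → ZFSet.{0} → Prop := fun ξ q =>
    Qmem (Tr L κ) (TLe (Tr L κ)) (chk t ξ) τ q ∨ ∀ r ∈ Tr L κ, pair r q ∈ TLe (Tr L κ) →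
      ¬ Qmem (Tr L κ) (TLe (Tr L κ)) (chk t ξ) τ r
  have hDe : ∀ {n : ℕ} {F H : (Fin n → ZFSet.{0}) → ZFSet.{0}}, DfnF L L F → DfnF L L H →
      Dfn L L fun v => De (F v) (H v) := by
    intro n F H hF hH
    refine (dfn_qmem hL hPM hLM (hck hF) (DfnF.const hτ) hH).or ?_
    refine hB.ball (Q := fun r v => pair r (H v) ∈ TLe (Tr L κ) →
      ¬ Qmem (Tr L κ) (TLe (Tr L κ)) (chk t (F v)) τ r) (DfnF.const hPM) ?_
    refine (Dfn.mem (hB.pair' (DfnF.proj 0) hH.tail) (DfnF.const hLM)).imp ?_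
    exact (dfn_qmem hL hPM hLM (hck hF.tail) (DfnF.const hτ) (DfnF.proj 0)).not
  have hDd : ∀ ξ, ∀ q ∈ Tr L κ, ∃ r ∈ Tr L κ, pair r q ∈ TLe (Tr L κ) ∧ De ξ r := by
    intro ξ q hq
    by_cases h : ∃ r ∈ Tr L κ, pair r q ∈ TLe (Tr L κ) ∧
        Qmem (Tr L κ) (TLe (Tr L κ)) (chk t ξ) τ r
    · obtain ⟨r, hr, hrq, h1⟩ := h
      exact ⟨r, hr, hrq, Or.inl h1⟩
    · exact ⟨q, hq, hP.refl q hq, Or.inr fun r hr hrq h1 => h ⟨r, hr, hrq, h1⟩⟩
  have hDm : ∀ ξ, ∀ q ∈ Tr L κ, ∀ r ∈ Tr L κ, pair r q ∈ TLe (Tr L κ) → De ξ q → De ξ r := by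
    intro ξ q hq r hr hrq h
    rcases h with h | h
    · exact Or.inl (Qmem.mono hP hq h hr hrq)
    · exact Or.inr fun s hs hsr => h s hs (hP.trans q hq r hr s hs hsr hrq)
  -- the conditions that decide everything are dense
  have hdense : ∀ p₀ ∈ Tr L κ, ∃ q ∈ Tr L κ, pair q p₀ ∈ TLe (Tr L κ) ∧ ∀ ξ ∈ β, De ξ q := by
    intro p₀ hp₀
    have hp₀L := hL.trans _ hPM _ hp₀
    -- the recursion
    let St : ZFSet.{0} → ZFSet.{0} → ZFSet.{0} → Prop := fun z g q => q ∈ Tr L κ ∧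
      pair q p₀ ∈ TLe (Tr L κ) ∧ (∀ w ∈ g, pair q (sn w) ∈ TLe (Tr L κ)) ∧ De z q
    let F : ZFSet.{0} → ZFSet.{0} := wfF (fun z => z) ZFSet.mem_wf fun z g =>
      chs L e fun q => St z g q
    have hFeq : ∀ z, F z = chs L e fun q => St z (gr F z) q := fun z => wfF_eq _ _ _ _
    have hFd : DfnF L L fun w : Fin 1 → ZFSet.{0} => F (w 0) := by
      refine hL.memrec (G := fun z g => chs L e fun q => St z g q) ?_ hFeq
      refine hL.chs' hg (Q := fun q w => St (w 0) (w 1) q) ?_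
      refine (Dfn.mem (DfnF.proj 0) (DfnF.const hPM)).and
        ((Dfn.mem (hB.pair' (DfnF.proj 0) (DfnF.const hp₀L)) (DfnF.const hLM)).and
          (Dfn.and ?_ (hDe (DfnF.proj 1) (DfnF.proj 0))))
      apply hB.ball (DfnF.proj 2)
      exact Dfn.mem (hB.pair' (DfnF.proj 1) (hL.sn' (DfnF.proj 0))) (DfnF.const hLM)
    have hfsd : DfnF L L fun w : Fin 1 → ZFSet.{0} => fs (F (w 0)) := hL.fs' hFd
    have hsnd : DfnF L L fun w : Fin 1 → ZFSet.{0} => sn (F (w 0)) := hL.sn' hFd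
    have hreg' : ∀ β' ∈ κ, (∀ ξ ∈ β', F ξ ∈ Tr L κ) →
        ZFSet.sUnion (im (fun z => fs (F z)) β') ∈ κ := fun β' hβ' h =>
      hreg β' hβ' (fun z => fs (F z)) hfsd fun ξ hξ => (mem_Tr hκo (h ξ hξ)).2.1
    have key : ∀ z, z ∈ κ → F z ∈ Tr L κ ∧ pair (F z) p₀ ∈ TLe (Tr L κ) ∧
        (∀ u ∈ z, pair (F z) (F u) ∈ TLe (Tr L κ)) ∧ De z (F z) := by
      intro z
      induction z using ZFSet.inductionOn with
      | _ z ih =>
        intro hz
        have hzo := hκo.mem hz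
        have hzL := hL.trans _ hκL _ hz
        have ih' : ∀ u ∈ z, F u ∈ Tr L κ ∧ pair (F u) p₀ ∈ TLe (Tr L κ) ∧
            (∀ u' ∈ u, pair (F u) (F u') ∈ TLe (Tr L κ)) ∧ De u (F u) := fun u hu =>
          ih u hu (hκo.mem_trans hu hz)
        -- the union
        set α := ZFSet.sUnion (im (fun z => fs (F z)) z) ∪ fs p₀ with hα
        set a := ZFSet.sUnion (im (fun z => sn (F z)) z) ∪ sn p₀ with ha
        obtain ⟨-, hp1, hp2, hp3⟩ := mem_Tr hκo hp₀
        have hακ : α ∈ κ := helper797_it.PG3.max_mem hκo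
          (hreg' z hz fun ξ hξ => (ih' ξ hξ).1) hp1
        have haL : a ∈ L := hL.union_mem (hL.union _ (hL.im_mem hzL hsnd)) hp2
        have haα : a ⊆ α := by
          intro η hη
          rcases ZFSet.mem_union.1 hη with h | h
          · obtain ⟨y, hy, hηy⟩ := ZFSet.mem_sUnion.1 h
            obtain ⟨u, hu, rfl⟩ := mem_im.1 hy
            exact ZFSet.mem_union.2 (Or.inl (ZFSet.mem_sUnion.2 ⟨_, mem_im.2 ⟨u, hu, rfl⟩,
              (mem_Tr hκo (ih' u hu).1).2.2.2 hηy⟩))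
          · exact ZFSet.mem_union.2 (Or.inr (hp3 h))
        have hq : pair α a ∈ Tr L κ := (pair_mem_Tr hκo).2 ⟨hακ, haL, haα⟩
        -- comparability
        have hcmp : ∀ u ∈ z, ∀ u' ∈ z, pair (F u) (F u') ∈ TLe (Tr L κ) ∨
            pair (F u') (F u) ∈ TLe (Tr L κ) := by
          intro u hu u' hu'
          rcases (hzo.mem hu).mem_trichotomous (hzo.mem hu') with h | h | h
          · exact Or.inr ((ih' u' hu').2.2.1 u h)
          · subst h
            exact Or.inl (hP.refl _ (ih' u hu).1)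
          · exact Or.inl ((ih' u hu).2.2.1 u' h)
        have hqF : ∀ u ∈ z, pair (pair α a) (F u) ∈ TLe (Tr L κ) := by
          intro u hu
          refine mem_TLe.2 ⟨hq, (ih' u hu).1, ?_, ?_⟩
          · rw [fs_pair]
            intro η hη
            exact ZFSet.mem_union.2 (Or.inl (ZFSet.mem_sUnion.2
              ⟨_, mem_im.2 ⟨u, hu, rfl⟩, hη⟩))
          · intro η hη
            rw [sn_pair]
            constructor
            · intro h
              rcases ZFSet.mem_union.1 h with h | h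
              · obtain ⟨y, hy, hηy⟩ := ZFSet.mem_sUnion.1 h
                obtain ⟨u', hu', rfl⟩ := mem_im.1 hy
                rcases hcmp u hu u' hu' with h1 | h1
                · obtain ⟨-, -, -, h2⟩ := mem_TLe.1 h1
                  exact (h2 η ((mem_Tr hκo (ih' u' hu').1).2.2.2 hηy)).2 hηy
                · obtain ⟨-, -, -, h2⟩ := mem_TLe.1 h1
                  exact (h2 η hη).1 hηy
              · obtain ⟨-, -, -, h2⟩ := mem_TLe.1 (ih' u hu).2.1
                exact (h2 η (hp3 h)).2 h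
            · intro h
              exact ZFSet.mem_union.2 (Or.inl (ZFSet.mem_sUnion.2
                ⟨_, mem_im.2 ⟨u, hu, rfl⟩, h⟩))
        have hqp : pair (pair α a) p₀ ∈ TLe (Tr L κ) := by
          refine mem_TLe.2 ⟨hq, hp₀, ?_, ?_⟩
          · rw [fs_pair]
            exact fun η hη => ZFSet.mem_union.2 (Or.inr hη)
          · intro η hη
            rw [sn_pair]
            constructor
            · intro h
              rcases ZFSet.mem_union.1 h with h | h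
              · obtain ⟨y, hy, hηy⟩ := ZFSet.mem_sUnion.1 h
                obtain ⟨u', hu', rfl⟩ := mem_im.1 hy
                obtain ⟨-, -, -, h2⟩ := mem_TLe.1 (ih' u' hu').2.1
                exact (h2 η hη).1 hηy
              · exact h
            · exact fun h => ZFSet.mem_union.2 (Or.inr h)
        obtain ⟨r, hr, hrq, hDr⟩ := hDd z _ hq
        have hex : ∃ q ∈ L, St z (gr F z) q := by
          refine ⟨r, hL.trans _ hPM _ hr, hr, hP.trans _ hp₀ _ hq _ hr hrq hqp, ?_, hDr⟩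
          intro w hw
          obtain ⟨u, hu, rfl⟩ := mem_gr.1 hw
          rw [sn_pair]
          exact hP.trans _ (ih' u hu).1 _ hq _ hr hrq (hqF u hu)
        obtain ⟨-, h1, h2, h3, h4⟩ := chs_spec (e := e) hex
        rw [← hFeq] at h1 h2 h4
        refine ⟨h1, h2, ?_, h4⟩
        intro u hu
        have h5 := h3 (pair u (F u)) (mem_gr.2 ⟨u, hu, rfl⟩)
        rw [sn_pair, ← hFeq] at h5
        exact h5
    obtain ⟨h1, h2, h3, -⟩ := key β hβ
    refine ⟨F β, h1, h2, fun ξ hξ => ?_⟩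
    obtain ⟨h5, -, -, h6⟩ := key ξ (hκo.mem_trans hξ hβ)
    exact hDm ξ _ h5 _ h1 (h3 ξ hξ) h6
  obtain ⟨q, hqG, hq⟩ := gen_dense hL hP hG (Q := fun q => ∀ ξ ∈ β, De ξ q) (by
    apply hB.ball (DfnF.const hβL)
    exact hDe (DfnF.proj 0) (DfnF.proj 1)) hdense
  -- the set is in the ground model
  have hqP := hG.sub hqG
  have hqL := hL.trans _ hPM _ hqP
  have h1 : ev G τ = ZFSet.sep (fun ξ => Qmem (Tr L κ) (TLe (Tr L κ)) (chk t ξ) τ q) β := by
    ext ξ
    rw [ZFSet.mem_sep]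
    constructor
    · intro hξ
      have hξβ := hxβ hξ
      refine ⟨hξβ, ?_⟩
      have hξL := hL.trans _ hβL _ hξβ
      rw [← ev_chk htG ξ, ev_mem_iff hL hP hG (chk_mem hL htM hξL) hτ] at hξ
      obtain ⟨p, hp, h2⟩ := hξ
      rcases hq ξ hξβ with h3 | h3
      · exact h3
      · obtain ⟨s, hs, hsp, hsq⟩ := hG.dir p hp q hqG
        exact absurd (Qmem.mono hP (hG.sub hp) h2 (hG.sub hs) hsp) (h3 s (hG.sub hs) hsq)
    · rintro ⟨hξβ, h2⟩
      have hξL := hL.trans _ hβL _ hξβ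
      rw [← ev_chk htG ξ, ev_mem_iff hL hP hG (chk_mem hL htM hξL) hτ]
      exact ⟨q, hqG, h2⟩
  rw [h1]
  exact hL.sep_mem (Q := fun ξ => Qmem (Tr L κ) (TLe (Tr L κ)) (chk t ξ) τ q)
    (dfn_qmem hL hPM hLM (hck (DfnF.proj 0)) (DfnF.const hτ) (DfnF.const hqL)) hβL

end Pool.Agent.H640
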