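import Pool.Graph.R_seed8.Y588.Gen
import Pool.Graph.R_pool_sql_team_seeded_620a6dc7.helper797_it_.PG3

/-!
# Generic extensions of transitive models of ZF and ZFC (no global choice is assumed)
-/

set_option autoImplicit false

namespace Pool.Agent.H640

open Pool.Agent.W868 Pool.Agent.W868.GM Pool.Agent.Y588
open ZFSet (pair)

section

variable {M : Set ZFSet.{0}} (hM : IsZF M) {P Le : ZFSet.{0}} (hP : IsForcing M P Le)
  {G : ZFSet.{0}} (hG : IsGeneric M P Le G)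

include hM hP hG

/-- Replacement in the extension, from collection in the ground model. -/
theorem ext_repl (φ : Fml ZFSet.{0} 2)
    (hφ : φ.Over (ext M G)) (x : ZFSet.{0}) (hx : x ∈ ext M G)
    (h : ∀ z ∈ x, ∃! w, w ∈ ext M G ∧ Sat (ext M G) id φ ![z, w]) :
    ∃ y ∈ ext M G, ∀ w, w ∈ y ↔ w ∈ ext M G ∧ ∃ z ∈ x, Sat (ext M G) id φ ![z, w] := by
  obtain ⟨nm, hnm⟩ := exists_nm M G
  have hx' := hx
  obtain ⟨X, hX, rfl⟩ := hx
  have hB := hM.base
  have hPM := hP.mem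
  have hLM := hP.le_mem
  obtain ⟨-, hO⟩ := sat_nm hnm φ hφ ![∅, ∅]
  have hd : Dfn M M fun u : Fin 2 → ZFSet.{0} =>
      Frc P Le M (φ.map nm) ![fs (u 1), u 0] (sn (u 1)) := by
    refine (dfn_frc hM hPM hLM (φ.map nm) hO (m := 2)
      (Fin.cons (fun w => fs (w 1)) fun _ w => w 0) (by
        intro i
        refine Fin.cases ?_ (fun i => ?_) i
        · exact hM.fs' (DfnF.proj 1)
        · exact DfnF.proj 0) (H := fun w => sn (w 1)) (hM.sn' (DfnF.proj 1))).congr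
        fun w _ => ?_
    have h3 : (fun i => (Fin.cons (fun w => fs (w 1)) (fun _ w => w 0) :
        Fin 2 → (Fin 2 → ZFSet.{0}) → ZFSet.{0}) i w) = ![fs (w 1), w 0] := by
      funext i
      fin_cases i <;> rfl
    rw [h3]
  obtain ⟨α, hα, hcol⟩ := helper797_it.collect hM
    (Q := fun b a => Frc P Le M (φ.map nm) ![fs a, b] (sn a)) hd
    (hM.prod_mem (dm_mem hM hX) hPM)
  have hY : helper797_it.Vh M α.toZFSet ∈ M :=
    (helper797_it.dfn_Vh hM (DfnF.proj (0 : Fin 1))).1 (fun _ => α.toZFSet) fun _ => hα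
  obtain ⟨Y, hY', h2⟩ := cover_mem hM hP hG hY
  obtain ⟨y, hy, h3⟩ := ext_sep hM hP hG
    (.ex (.and (.mem (Sum.inl 0) (Sum.inr (ev G X)))
      (φ.subst ![Sum.inl 0, Sum.inl 1])))
    ⟨⟨TOver.inl _, tOver_inr.2 hx'⟩, over_subst _ _ (fun k => by
      fin_cases k <;> exact TOver.inl _) hφ⟩ Y hY'
  have h4 : ∀ w, Sat (ext M G) id (.ex (.and (.mem (Sum.inl 0) (Sum.inr (ev G X)))
      (φ.subst ![Sum.inl 0, Sum.inl 1]))) ![w] ↔ ∃ z ∈ ev G X, Sat (ext M G) id φ ![z, w] := by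
    intro w
    simp only [Sat, sat_subst]
    have h5 : ∀ a, (fun k => Sum.elim (Fin.cons a ![w] : Fin 2 → ZFSet.{0}) id
        ((![Sum.inl 0, Sum.inl 1] : Fin 2 → Fin 2 ⊕ ZFSet.{0}) k)) = ![a, w] := by
      intro a
      funext k
      fin_cases k <;> rfl
    constructor
    · rintro ⟨a, -, h6, h7⟩
      rw [h5] at h7
      exact ⟨a, h6, h7⟩
    · rintro ⟨a, h6, h7⟩
      refine ⟨a, ext_trans hM _ hx' _ h6, h6, ?_⟩
      rw [h5]
      exact h7
  refine ⟨y, hy, fun w => ?_⟩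
  rw [h3, h4]
  constructor
  · rintro ⟨h5, h6⟩
    exact ⟨ext_trans hM _ hY' _ h5, h6⟩
  · rintro ⟨hw, z, hz, h6⟩
    refine ⟨?_, z, hz, h6⟩
    have hzz := hz
    obtain ⟨a, p, h7, h8, rfl⟩ := mem_ev.1 hz
    obtain ⟨τ, hτ, rfl⟩ := hw
    have haM : a ∈ M := hM.trans _ (dm_mem hM hX) _ (mem_dm h7)
    have h9 := (sat_nm hnm φ hφ ![ev G a, ev G τ]).1.1 h6
    have h10 : (![ev G a, ev G τ] : Fin 2 → ZFSet.{0}) = ev G ∘ ![a, τ] := by
      funext k
      fin_cases k <;> rfl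
    rw [h10, truth hM hP hG (φ.map nm) hO ![a, τ] (by
      intro i
      fin_cases i
      · exact haM
      · exact hτ)] at h9
    obtain ⟨q, hq, h11⟩ := h9
    obtain ⟨b, h12, h13⟩ := hcol (pair a q)
      (ZFSet.pair_mem_prod.2 ⟨mem_dm h7, hG.sub hq⟩) ⟨τ, hτ, by rw [fs_pair, sn_pair]; exact h11⟩
    rw [fs_pair, sn_pair] at h13
    have h12' := hM.trans _ hY _ h12
    have h14 := (truth hM hP hG (φ.map nm) hO
      ![a, b] (by
      intro i
      fin_cases i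
      · exact haM
      · exact h12')).2 ⟨q, hq, h13⟩
    have h15 : (ev G ∘ ![a, b] :
        Fin 2 → ZFSet.{0}) =
        ![ev G a, ev G b] := by
      funext k
      fin_cases k <;> rfl
    rw [h15, ← (sat_nm hnm φ hφ _).1] at h14
    have h16 := (h _ hzz).unique ⟨⟨_, h12', rfl⟩, h14⟩ ⟨⟨_, hτ, rfl⟩, h6⟩
    rw [h2, ← h16]
    exact ⟨b, h12, rfl⟩

/-- The generic extension is a model of ZF. -/
theorem isZF_ext : IsZF (ext M G) where
  trans := ext_trans hM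
  pairing := ext_pairing hM hP hG
  union := ext_union hM hP hG
  infinity := sub_ext hM hP hG hM.infinity
  power := ext_power hM hP hG
  separation := ext_sep hM hP hG
  replacement := ext_repl hM hP hG

end

/-- Choice, from injections into ordinals. -/
theorem isZFC_of_wo {M : Set ZFSet.{0}} (hM : IsZF M)
    (h : ∀ x ∈ M, ∃ α ∈ M, α.IsOrdinal ∧ Inj M x α) : IsZFC M where
  toIsZF := hM
  choice := by
    intro x hx hne hd
    have hB := hM.base
    have hU := hM.union _ hx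
    obtain ⟨α, hα, hαo, f, hf, hi⟩ := h _ hU
    refine ⟨_, hM.sep_mem (x := ZFSet.sUnion x) (Q := fun z => ∃ y ∈ x, z ∈ y ∧
      ∀ z' ∈ y, ¬ ap f z' ∈ ap f z) ?_ hU, ?_⟩
    · (repeat' first
      | assumption
      | exact DfnF.proj _
      | exact DfnF.const (by assumption)
      | apply Dfn.not | apply Dfn.and | apply Dfn.imp
      | apply hB.bex | apply hB.ball
      | apply Dfn.mem | apply hM.ap')
    · intro y hy
      have hsub : ∀ z ∈ y, z ∈ ZFSet.sUnion x := fun z hz => ZFSet.mem_sUnion.2 ⟨y, hy, hz⟩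
      have hap : ∀ z ∈ y, pair z (ap f z) ∈ f ∧ ap f z ∈ α := by
        intro z hz
        obtain ⟨b, hb, hb'⟩ := fun_exists hi.1 (hsub z hz)
        rw [ap_func hi.1 hb']
        exact ⟨hb', hb⟩
      obtain ⟨z, hz, hmin⟩ := (InvImage.wf (ap f) ZFSet.mem_wf).has_min {z | z ∈ y} (hne y hy)
      refine ⟨z, ⟨hz, ZFSet.mem_sep.2 ⟨hsub z hz, y, hy, hz, fun z' hz' => hmin z' hz'⟩⟩, ?_⟩
      rintro w ⟨hw, hw'⟩
      obtain ⟨-, y', hy', hwy', h3⟩ := ZFSet.mem_sep.1 hw'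
      have he := hd y hy y' hy' w hw hwy'
      subst he
      have h4 := h3 z hz
      have h5 := hmin w hw
      have h6 : ap f w = ap f z := by
        rcases (hαo.mem (hap w hw).2).mem_trichotomous (hαo.mem (hap z hz).2) with h7 | h7 | h7
        · exact absurd h7 h5
        · exact h7
        · exact absurd h7 h4
      have h7 := (hap w hw).1
      rw [h6] at h7
      exact hi.2 _ _ _ h7 (hap z hz).1

/-- The generic extension of a model of ZFC is a model of ZFC. -/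
theorem isZFC_ext {M : Set ZFSet.{0}} (hM : IsZFC M) {P Le : ZFSet.{0}}
    (hP : IsForcing M P Le) {G : ZFSet.{0}} (hG : IsGeneric M P Le G) : IsZFC (ext M G) := by
  have hZ := isZF_ext hM.toIsZF hP hG
  have hsub := sub_ext hM.toIsZF hP hG
  have hGe := gen_mem_ext hM.toIsZF hP hG
  refine isZFC_of_wo hZ ?_
  rintro _ ⟨X, hX, rfl⟩
  have hdX := dm_mem hM.toIsZF hX
  obtain ⟨α, hα, hαo, f, hf, hi⟩ := helper797_it.PG3.exists_wo hM hdX
  refine ⟨α, hsub hα, hαo, ?_⟩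
  have hB := hZ.base
  have hf' := hsub hf
  have hdX' := hsub hdX
  have hX' := hsub hX
  refine Inj.of_fun hZ ⟨X, hX, rfl⟩ (hsub hα)
    (h := fun z => lo (ext M G) fun ξ => ∃ y ∈ dm X, pair y ξ ∈ f ∧ ev G y = z) ?_ ?_ ?_
  · refine hZ.lo' (Q := fun ξ w => ∃ y ∈ dm X, pair y ξ ∈ f ∧ ev G y = w 0) ?_
    have hev : DfnF (ext M G) (ext M G) fun w : Fin 3 → ZFSet.{0} => ev G (w 0) :=
      DfnF.comp1 (f := ev G) (dfn_ev hZ hGe) (DfnF.proj 0)
    apply hB.bex (DfnF.const hdX')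
    refine Dfn.and ?_ ?_
    · exact Dfn.mem (hB.pair' (DfnF.proj 0) (DfnF.proj 1)) (DfnF.const hf')
    · exact Dfn.eq hev (DfnF.proj 2)
  · intro z hz
    have h1 := lo_spec (M := ext M G) (P := fun ξ => ∃ y ∈ dm X, pair y ξ ∈ f ∧ ev G y = z) (by
      obtain ⟨y, p, h1, h2, h3⟩ := mem_ev.1 hz
      obtain ⟨b, hb, hb'⟩ := fun_exists hi.1 (mem_dm h1)
      exact ⟨b, hsub (hM.trans _ hα _ hb), hαo.mem hb, y, mem_dm h1, hb', h3⟩)
    obtain ⟨-, -, y, hy, h2, h3⟩ := h1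
    exact (ZFSet.pair_mem_prod.1 (hi.1.1 h2)).2
  · have key : ∀ z ∈ ev G X, ∃ y ∈ dm X,
        pair y (lo (ext M G) fun ξ => ∃ y ∈ dm X, pair y ξ ∈ f ∧ ev G y = z) ∈ f ∧
          ev G y = z := by
      intro z hz
      obtain ⟨y, p, h1, h2, h3⟩ := mem_ev.1 hz
      obtain ⟨b, hb, hb'⟩ := fun_exists hi.1 (mem_dm h1)
      exact (lo_spec (M := ext M G) (P := fun ξ => ∃ y ∈ dm X, pair y ξ ∈ f ∧ ev G y = z)
        ⟨b, hsub (hM.trans _ hα _ hb), hαo.mem hb, y, mem_dm h1, hb', h3⟩).2.2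
    intro a ha a' ha' h
    obtain ⟨y, -, h2, h3⟩ := key a ha
    obtain ⟨y', -, h2', h3'⟩ := key a' ha'
    have h' : (lo (ext M G) fun ξ => ∃ y ∈ dm X, pair y ξ ∈ f ∧ ev G y = a) =
      (lo (ext M G) fun ξ => ∃ y ∈ dm X, pair y ξ ∈ f ∧ ev G y = a') := h
    rw [← h'] at h2'
    rw [← h3, ← h3', hi.2 _ _ _ h2 h2']

end Pool.Agent.H640
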