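import Pool.Agent.H640.Dis

/-!
# The property of the elementary substructures of `H(χ)`
-/

set_option autoImplicit false
set_option linter.unreachableTactic false
set_option linter.unusedTactic false

namespace Pool.Agent.H640

open Pool.Agent.W868 Pool.Agent.W868.GM Pool.Agent.Y588
open ZFSet (pair)

theorem HM_mono {M W : Set ZFSet.{0}} (h : M ⊆ W) {α : ZFSet.{0}} : HM M α ⊆ HM W α := by
  rintro x ⟨hx, T, hT, hTt, hxT, β, hβ, f, hf, hi⟩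
  exact ⟨h hx, T, h hT, hTt, hxT, β, hβ, f, h hf, hi⟩

/-- The elementary substructures of `H(χ)` of the extension. -/
theorem starH {V : Set ZFSet.{0}} (hV : IsZFC V) {P Le : ZFSet.{0}} (hP : IsForcing V P Le)
    {G : ZFSet.{0}} (hG : IsGeneric V P Le G) {μ : ZFSet.{0}} (hμ : μ ∈ V) (hμo : μ.IsOrdinal)
    (hω : ZFSet.omega ⊆ μ) (hPμ : Inj V P μ) {χ : ZFSet.{0}} (hχ : χ ∈ V) (hχo : χ.IsOrdinal)
    {R x : ZFSet.{0}} (hR : R ∈ ext V G) (hx : x ∈ HM (ext V G) χ) :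
    ∃ N ∈ ext V G, x ∈ N ∧ IsElem R (HM V χ) {y | y ∈ N} (HM (ext V G) χ) ∧
      (∃ N₀ ∈ V, ∀ y, y ∈ N₀ ↔ y ∈ N ∧ y ∈ HM V χ) ∧ ∃ f ∈ ext V G, IsInj N μ f := by
  have hVz := hV.toIsZF
  have hWz := (isZFC_ext hV hP hG).toIsZF
  have hsub := sub_ext hVz hP hG
  obtain ⟨A, hA, hA'⟩ := exists_HM hWz (hsub hχ) hχo
  obtain ⟨B, hB, hB'⟩ := exists_HM hVz hχ hχo
  have hBA : B ⊆ A := fun y hy => (hA' y).2 (HM_mono hsub ((hB' y).1 hy))
  obtain ⟨N, hN, h1, h2, ⟨N₀, hN₀, h3⟩, h4⟩ := star hV hP hG hμ hμo hω hPμ hA hR hB hBA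
    ((hA' x).2 hx)
  have e1 : {y | y ∈ A} = HM (ext V G) χ := by
    ext y
    exact hA' y
  have e2 : {y | y ∈ B} = HM V χ := by
    ext y
    exact hB' y
  rw [e1, e2] at h2
  exact ⟨N, hN, h1, h2, ⟨N₀, hN₀, fun y => by rw [h3, hB']⟩, h4⟩

theorem LL_eq {V : Set ZFSet.{0}} (hV : IsZF V) : LC V ∅ = LL V :=
  L_eq (isLA_LC hV hV.empty_mem hV.empty_mem ZFSet.isOrdinal_empty (ZFSet.empty_subset _))
    fun _ hx => ⟨fun h => LC_subset hV hV.empty_mem h, fun h => ord_LC hV hV.empty_mem h hx⟩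

/-- Generic filters contain any given condition. -/
theorem main {V : Set ZFSet.{0}} (hV : IsZFC V) {κ : ZFSet.{0}} (hκ : IsAleph1 V κ) :
    ∃ P Le : ZFSet.{0}, IsForcing (LL V) P Le ∧ IsForcing V P Le ∧
      (∀ G, IsGeneric V P Le G → G ∉ V) ∧
      (∀ G, IsGeneric (LL V) P Le G → (∀ β ∈ κ, ∀ x ∈ ext (LL V) G, x ⊆ β → x ∈ LL V) ∧
        ∃ x ∈ ext (LL V) G, x ⊆ κ ∧ x ∉ LL V) ∧ Inj V P κ := by
  have hM := hV.toIsZF
  have hL : IsLA ∅ (LC V ∅) := isLA_LC hM hM.empty_mem hM.empty_mem ZFSet.isOrdinal_empty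
    (ZFSet.empty_subset _)
  have hLV : LC V ∅ ⊆ V := LC_subset hM hM.empty_mem
  have hκL : κ ∈ LC V ∅ := ord_LC hM hM.empty_mem hκ.1 hκ.2.1
  have hκo := hκ.2.1
  have hlim : ∀ α ∈ κ, sc α ∈ κ := fun α hα => sc_mem' hV hκ hα
  have hne : ∅ ∈ κ := omega_sub hV hκ ZFSet.omega_zero
  have hP := isForcing_Tr hL.zf hκL hκo hne
  have hPV : IsForcing V (Tr (LC V ∅) κ) (TLe (Tr (LC V ∅) κ)) :=
    ⟨hLV hP.mem, hLV hP.le_mem, hP.refl, hP.trans, hP.top⟩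
  rw [← LL_eq hM]
  refine ⟨_, _, hP, hPV, ?_, ?_, tree_small hV hκ⟩
  · intro G hG hGV
    obtain ⟨-, -, h3⟩ := new_sub hL.zf hκL hκo hlim hM hLV hne hG
    exact h3 (hM.union _ (hM.im_mem hGV (hM.sn' (DfnF.proj 0))))
  · intro G hG
    refine ⟨fun β hβ x hx hxβ => dist hL.zf hL.gc hκL hκo hne ?_ hG hβ hx hxβ, ?_⟩
    · intro β' hβ' F hF h
      have hβL := hL.zf.trans _ hκL _ hβ'
      have h1 : gr F β' ∈ LC V ∅ :=
        hL.zf.im_mem hβL (hL.zf.base.pair' (DfnF.proj 0) hF)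
      have h2 : im F β' = im (ap (gr F β')) β' := im_congr fun u hu => (ap_gr hu).symm
      rw [h2]
      exact reg hV hκ hβ' (hLV h1) fun ξ hξ => by
        rw [ap_gr hξ]
        exact h ξ hξ
    · obtain ⟨h1, h2, h3⟩ := new_sub hL.zf hκL hκo hlim hL.zf (fun _ h => h) hne hG
      exact ⟨_, h2, h1, h3⟩

end Pool.Agent.H640
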