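import Pool.Agent.H640.Lim
import Pool.Agent.H640.Defs

/-!
# Sets closed under the basic operations and under a choice function are elementary
-/

set_option autoImplicit false
set_option linter.unreachableTactic false
set_option linter.unusedTactic false

namespace Pool.Agent.H640

open Pool.Agent.W868 Pool.Agent.W868.GM Pool.Agent.Y588
open ZFSet (pair)

/-- A class closed under the basic operations (not necessarily transitive). -/
structure Hl (C : Set ZFSet.{0}) : Prop where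
  ne : ∃ x, x ∈ C
  cl : ∀ i < 10, ∀ a ∈ C, ∀ b ∈ C, ∃ y ∈ C, ∀ u, u ∈ y ↔ GR ∅ i u a b

namespace Hl

variable {C : Set ZFSet.{0}} (hC : Hl C)

include hC

theorem empty_mem : ∅ ∈ C := by
  obtain ⟨x, hx⟩ := hC.ne
  obtain ⟨y, hy, h⟩ := hC.cl 3 (by omega) x hx x hx
  have h1 : y = ∅ := by
    rw [ZFSet.eq_empty]
    intro u hu
    have h2 := (h u).1 hu
    exact h2.2 h2.1
  exact h1 ▸ hy

theorem upair_mem {a b : ZFSet.{0}} (ha : a ∈ C) (hb : b ∈ C) : ({a, b} : ZFSet.{0}) ∈ C := by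
  obtain ⟨y, hy, h⟩ := hC.cl 1 (by omega) a ha b hb
  have h1 : y = {a, b} := by
    ext u
    rw [h, ZFSet.mem_pair]
    rfl
  exact h1 ▸ hy

theorem single_mem {a : ZFSet.{0}} (ha : a ∈ C) : ({a} : ZFSet.{0}) ∈ C := by
  have h := hC.upair_mem ha ha
  rwa [ZFSet.pair_eq_singleton] at h

theorem diff_mem {a b : ZFSet.{0}} (ha : a ∈ C) (hb : b ∈ C) : a \ b ∈ C := by
  obtain ⟨y, hy, h⟩ := hC.cl 3 (by omega) a ha b hb
  have h1 : y = a \ b := by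
    ext u
    rw [h, ZFSet.mem_sdiff]
    rfl
  exact h1 ▸ hy

theorem inter_mem {a b : ZFSet.{0}} (ha : a ∈ C) (hb : b ∈ C) : a ∩ b ∈ C := by
  have h := hC.diff_mem ha (hC.diff_mem ha hb)
  have h1 : a \ (a \ b) = a ∩ b := by
    ext u
    simp only [ZFSet.mem_sdiff, ZFSet.mem_inter]
    tauto
  exact h1 ▸ h

theorem prod_mem {a b : ZFSet.{0}} (ha : a ∈ C) (hb : b ∈ C) : ZFSet.prod a b ∈ C := by
  obtain ⟨y, hy, h⟩ := hC.cl 4 (by omega) a ha b hb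
  have h1 : y = ZFSet.prod a b := by
    ext u
    rw [h, ZFSet.mem_prod]
    rfl
  exact h1 ▸ hy

/-- The set of all tuples. -/
theorem exists_pows {X : ZFSet.{0}} (hX : X ∈ C) : ∀ n : ℕ,
    ∃ P ∈ C, ∀ p, p ∈ P ↔ ∃ v, IsTup X n p v
  | 0 => by
    refine ⟨{∅}, hC.single_mem hC.empty_mem, fun p => ?_⟩
    rw [ZFSet.mem_singleton]
    constructor
    · rintro rfl
      exact ⟨Fin.elim0, fun i => i.elim0, rfl⟩
    · rintro ⟨v, -, rfl⟩
      rfl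
  | n + 1 => by
    obtain ⟨P, hP, h⟩ := exists_pows hX n
    refine ⟨_, hC.prod_mem hX hP, fun p => ?_⟩
    have h1 := isTup_succ (X := X) (p := p) (n := n) (Q := fun _ => True)
    simp only [and_true] at h1
    rw [h1, ZFSet.mem_prod]
    constructor
    · rintro ⟨x, hx, q, hq, h2⟩
      exact ⟨x, hx, q, h2, (h q).1 hq⟩
    · rintro ⟨x, hx, q, h2, hq⟩
      exact ⟨x, hx, q, (h q).2 hq, h2⟩

/-- The graph of a variable. -/
theorem exists_var {X : ZFSet.{0}} (hX : X ∈ C) : ∀ (n : ℕ) (i : Fin n),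
    ∃ I ∈ C, ∀ q, q ∈ I ↔ ∃ p v, q = pair (v i) p ∧ IsTup X n p v
  | 0, i => i.elim0
  | n + 1, i => by
    refine Fin.cases ?_ (fun i => ?_) i
    · obtain ⟨P, hP, h⟩ := hC.exists_pows hX n
      obtain ⟨y, hy, h'⟩ := hC.cl 7 (by omega) X hX P hP
      refine ⟨y, hy, fun q => ?_⟩
      rw [h']
      constructor
      · rintro ⟨x, hx, r, hr, c, d, rfl, rfl, rfl⟩
        obtain ⟨v, hv, rfl⟩ := (h r).1 hr
        refine ⟨_, Fin.cons c v, rfl, fun i => ?_, rfl⟩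
        refine Fin.cases ?_ (fun i => ?_) i
        · exact hx
        · exact hv i
      · rintro ⟨p, v, rfl, hv, rfl⟩
        exact ⟨v 0, hv 0, tup (Fin.tail v), (h _).2 ⟨_, fun i => hv _, rfl⟩, _, _, rfl, rfl, rfl⟩
    · obtain ⟨I, hI, h⟩ := exists_var hX n i
      obtain ⟨y, hy, h'⟩ := hC.cl 8 (by omega) X hX I hI
      refine ⟨y, hy, fun q => ?_⟩
      rw [h']
      constructor
      · rintro ⟨z, hz, p, hp, x, r, rfl, c, d, rfl, rfl, rfl⟩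
        obtain ⟨p', v, h1, hv, rfl⟩ := (h _).1 hp
        obtain ⟨rfl, rfl⟩ := ZFSet.pair_inj.1 h1
        refine ⟨_, Fin.cons z v, rfl, fun i => ?_, rfl⟩
        refine Fin.cases ?_ (fun i => ?_) i
        · exact hz
        · exact hv i
      · rintro ⟨p, v, rfl, hv, rfl⟩
        exact ⟨v 0, hv 0, pair (Fin.tail v i) (tup (Fin.tail v)),
          (h _).2 ⟨_, _, rfl, fun i => hv _, rfl⟩, _, _, rfl, _, _, rfl, rfl, rfl⟩

theorem exists_term {X : ZFSet.{0}} (hX : X ∈ C) {n : ℕ} (s : Fin n ⊕ ZFSet.{0})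
    (hs : TOver {x | x ∈ X ∧ x ∈ C} s) :
    ∃ I ∈ C, ∀ q, q ∈ I ↔ ∃ p v, q = pair (Sum.elim v id s) p ∧ IsTup X n p v := by
  cases s with
  | inl i => exact hC.exists_var hX n i
  | inr a =>
    obtain ⟨ha, haC⟩ := hs a rfl
    obtain ⟨P, hP, h⟩ := hC.exists_pows hX n
    refine ⟨_, hC.prod_mem (hC.single_mem haC) hP, fun q => ?_⟩
    rw [ZFSet.mem_prod]
    constructor
    · rintro ⟨x, hx, p, hp, rfl⟩
      rw [ZFSet.mem_singleton] at hx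
      subst hx
      obtain ⟨v, hv⟩ := (h p).1 hp
      exact ⟨p, v, rfl, hv⟩
    · rintro ⟨p, v, rfl, hv⟩
      exact ⟨a, ZFSet.mem_singleton.2 rfl, p, (h p).2 ⟨v, hv⟩, rfl⟩

/-- The set of the tuples that satisfy a formula. -/
theorem exists_sat {X : ZFSet.{0}} (hX : X ∈ C) : {n : ℕ} → (φ : Fml ZFSet.{0} n) →
    φ.Over {x | x ∈ X ∧ x ∈ C} →
      ∃ D ∈ C, ∀ p, p ∈ D ↔ ∃ v, IsTup X n p v ∧ Sat {x | x ∈ X} id φ v
  | n, .mem s t, h => by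
    obtain ⟨I, hI, h1⟩ := hC.exists_term hX s h.1
    obtain ⟨J, hJ, h2⟩ := hC.exists_term hX t h.2
    obtain ⟨y, hy, h'⟩ := hC.cl 9 (by omega) I hI J hJ
    refine ⟨y, hy, fun p => ?_⟩
    rw [h']
    constructor
    · rintro ⟨q, hq, q', hq', a, r, rfl, rfl, a', r', rfl, rfl, h3⟩
      obtain ⟨p, v, h4, hv, rfl⟩ := (h1 _).1 hq
      obtain ⟨p', v', h5, hv', rfl⟩ := (h2 _).1 hq'
      obtain ⟨rfl, rfl⟩ := ZFSet.pair_inj.1 h4
      obtain ⟨rfl, h6⟩ := ZFSet.pair_inj.1 h5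
      obtain rfl := tup_inj h6
      exact ⟨v, ⟨hv, rfl⟩, h3⟩
    · rintro ⟨v, hv, h3⟩
      exact ⟨_, (h1 _).2 ⟨p, v, rfl, hv⟩, _, (h2 _).2 ⟨p, v, rfl, hv⟩, _, _, rfl, rfl, _, _, rfl,
        rfl, h3⟩
  | n, .eq s t, h => by
    obtain ⟨I, hI, h1⟩ := hC.exists_term hX s h.1
    obtain ⟨J, hJ, h2⟩ := hC.exists_term hX t h.2
    obtain ⟨y, hy, h'⟩ := hC.cl 5 (by omega) _ (hC.inter_mem hI hJ) _ hI
    refine ⟨y, hy, fun p => ?_⟩
    rw [h']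
    constructor
    · rintro ⟨q, hq, a, r, rfl, rfl⟩
      rw [ZFSet.mem_inter] at hq
      obtain ⟨p, v, h4, hv, rfl⟩ := (h1 _).1 hq.1
      obtain ⟨p', v', h5, hv', rfl⟩ := (h2 _).1 hq.2
      obtain ⟨rfl, rfl⟩ := ZFSet.pair_inj.1 h4
      obtain ⟨h7, h6⟩ := ZFSet.pair_inj.1 h5
      obtain rfl := tup_inj h6
      exact ⟨v, ⟨hv, rfl⟩, h7⟩
    · rintro ⟨v, hv, h3⟩
      refine ⟨pair (Sum.elim v id s) p, ZFSet.mem_inter.2 ⟨(h1 _).2 ⟨p, v, rfl, hv⟩, ?_⟩, _, _,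
        rfl, rfl⟩
      have h4 : Sum.elim v id s = Sum.elim v id t := h3
      rw [h4]
      exact (h2 _).2 ⟨p, v, rfl, hv⟩
  | n, .neg φ, h => by
    obtain ⟨P, hP, h1⟩ := hC.exists_pows hX n
    obtain ⟨D, hD, h2⟩ := exists_sat hX φ h
    refine ⟨_, hC.diff_mem hP hD, fun p => ?_⟩
    rw [ZFSet.mem_sdiff, h1, h2]
    constructor
    · rintro ⟨⟨v, hv⟩, h3⟩
      exact ⟨v, hv, fun h4 => h3 ⟨v, hv, h4⟩⟩
    · rintro ⟨v, hv, h3⟩
      refine ⟨⟨v, hv⟩, ?_⟩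
      rintro ⟨v', hv', h4⟩
      obtain rfl := tup_inj (hv.2.symm.trans hv'.2)
      exact h3 h4
  | n, .and φ ψ, h => by
    obtain ⟨D, hD, h1⟩ := exists_sat hX φ h.1
    obtain ⟨E, hE, h2⟩ := exists_sat hX ψ h.2
    refine ⟨_, hC.inter_mem hD hE, fun p => ?_⟩
    rw [ZFSet.mem_inter, h1, h2]
    constructor
    · rintro ⟨⟨v, hv, h3⟩, ⟨v', hv', h4⟩⟩
      obtain rfl := tup_inj (hv.2.symm.trans hv'.2)
      exact ⟨v, hv, h3, h4⟩
    · rintro ⟨v, hv, h3, h4⟩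
      exact ⟨⟨v, hv, h3⟩, ⟨v, hv, h4⟩⟩
  | n, .ex φ, h => by
    obtain ⟨D, hD, h1⟩ := exists_sat hX φ h
    obtain ⟨y, hy, h'⟩ := hC.cl 5 (by omega) D hD D hD
    refine ⟨y, hy, fun p => ?_⟩
    rw [h']
    constructor
    · rintro ⟨q, hq, a, r, rfl, rfl⟩
      obtain ⟨a', ha, q, h2, w, hw, h3⟩ := isTup_succ.1 ((h1 _).1 hq)
      obtain ⟨rfl, rfl⟩ := ZFSet.pair_inj.1 h2
      exact ⟨w, hw, a, ha, h3⟩
    · rintro ⟨v, hv, a, ha, h3⟩
      exact ⟨pair a p, (h1 _).2 (isTup_succ.2 ⟨a, ha, p, rfl, v, hv, h3⟩), _, _, rfl, rfl⟩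

/-- Definable subsets. -/
theorem sep {X : ZFSet.{0}} (hX : X ∈ C) (φ : Fml ZFSet.{0} 1)
    (hφ : φ.Over {x | x ∈ X ∧ x ∈ C}) :
    ∃ y ∈ C, ∀ z, z ∈ y ↔ z ∈ X ∧ Sat {x | x ∈ X} id φ ![z] := by
  obtain ⟨D, hD, h1⟩ := hC.exists_sat hX φ hφ
  obtain ⟨y, hy, h'⟩ := hC.cl 6 (by omega) D hD D hD
  refine ⟨y, hy, fun z => ?_⟩
  have hv : ∀ (x : ZFSet.{0}) (w : Fin 0 → ZFSet.{0}),
      (Fin.cons x w : Fin 1 → ZFSet.{0}) = ![x] := by
    intro x w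
    funext i
    fin_cases i
    rfl
  rw [h']
  constructor
  · rintro ⟨q, hq, a, r, rfl, rfl⟩
    obtain ⟨a', ha, q, h2, w, hw, h3⟩ := isTup_succ.1 ((h1 _).1 hq)
    obtain ⟨rfl, rfl⟩ := ZFSet.pair_inj.1 h2
    rw [hv] at h3
    exact ⟨ha, h3⟩
  · rintro ⟨hz, h3⟩
    refine ⟨pair z ∅, (h1 _).2 (isTup_succ.2 ⟨z, hz, ∅, rfl, Fin.elim0, ⟨fun i => i.elim0, rfl⟩,
      ?_⟩), _, _, rfl, rfl⟩
    rw [hv]
    exact h3

end Hl

/-- Truth in `(X, ∈, R, B)` is definable in the structure `(X', ∈)`. -/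
theorem dfn_ssat {S X' : Set ZFSet.{0}} (hB : IsBase X') {R B X : ZFSet.{0}} (hR : R ∈ X')
    (hBX : B ∈ X') (hX : X ∈ X') (hRS : R ∈ S) (hBS : B ∈ S) (hXS : X ∈ S) : {n : ℕ} →
    (φ : SFml n) → Dfn S X' fun v => SSat R {x | x ∈ B} {x | x ∈ X} φ v
  | _, .mem i j => Dfn.mem (DfnF.proj i) (DfnF.proj j)
  | _, .eq i j => Dfn.eq (DfnF.proj i) (DfnF.proj j)
  | _, .rel i j => Dfn.mem (hB.pair' (DfnF.proj i) (DfnF.proj j)) (DfnF.const' hR hRS)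
  | _, .prd i => Dfn.mem (DfnF.proj i) (DfnF.const' hBX hBS)
  | _, .neg φ => (dfn_ssat hB hR hBX hX hRS hBS hXS φ).not
  | _, .and φ ψ => (dfn_ssat hB hR hBX hX hRS hBS hXS φ).and
      (dfn_ssat hB hR hBX hX hRS hBS hXS ψ)
  | _, .ex φ => by
    have h := dfn_ssat hB hR hBX hX hRS hBS hXS φ
    refine hB.bex (F := fun _ => X)
      (Q := fun a v => SSat R {x | x ∈ B} {x | x ∈ X} φ (Fin.cons a v))
      (DfnF.const' hX hXS) (h.congr fun w _ => ?_)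
    rw [Fin.cons_self_tail]

/-- The hull is an elementary substructure. -/
theorem hull_elem {C : Set ZFSet.{0}} (hC : Hl C) (hch : ∀ y ∈ C, (∃ z, z ∈ y) → ∃ z ∈ C, z ∈ y)
    {X' : ZFSet.{0}} (hX'C : X' ∈ C) (hX' : IsBase {x | x ∈ X'}) {R B X : ZFSet.{0}}
    (hR : R ∈ X') (hB : B ∈ X') (hX : X ∈ X') (hRC : R ∈ C) (hBC : B ∈ C) (hXC : X ∈ C) :
    IsElem R {x | x ∈ B} {x | x ∈ X ∧ x ∈ C} {x | x ∈ X} := by
  refine ⟨fun x hx => hx.1, ?_⟩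
  have hXX : ∀ x ∈ X, x ∈ X' := fun x hx => hX'.trans X hX x hx
  intro n φ
  induction φ with
  | mem i j => exact fun v _ => Iff.rfl
  | eq i j => exact fun v _ => Iff.rfl
  | rel i j => exact fun v _ => Iff.rfl
  | prd i => exact fun v _ => Iff.rfl
  | neg φ ih => exact fun v hv => not_congr (ih v hv)
  | and φ ψ ih1 ih2 => exact fun v hv => and_congr (ih1 v hv) (ih2 v hv)
  | @ex n φ ih =>
    intro v hv
    have hcons : ∀ a, a ∈ X → a ∈ C → ∀ i, (Fin.cons a v : Fin (n + 1) → ZFSet.{0}) i ∈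
        {x | x ∈ X ∧ x ∈ C} := by
      intro a ha haC i
      refine Fin.cases ?_ (fun i => ?_) i
      · exact ⟨ha, haC⟩
      · exact hv i
    constructor
    · rintro ⟨a, ⟨ha, haC⟩, h⟩
      exact ⟨a, ha, (ih _ (hcons a ha haC)).1 h⟩
    · rintro ⟨a, ha, h⟩
      -- the set of the witnesses
      have hψ := dfn_ssat (S := {x | x ∈ X' ∧ x ∈ C}) hX' hR hB hX ⟨hR, hRC⟩
        ⟨hB, hBC⟩ ⟨hX, hXC⟩ φ
      have hXd : Dfn {x | x ∈ X' ∧ x ∈ C} {x | x ∈ X'} fun w : Fin (n + 1) → ZFSet.{0} =>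
          w 0 ∈ X ∧ SSat R {x | x ∈ B} {x | x ∈ X} φ w :=
        (Dfn.mem (DfnF.proj 0) (DfnF.const' (show X ∈ {x | x ∈ X'} from hX)
          (show X ∈ {x | x ∈ X' ∧ x ∈ C} from ⟨hX, hXC⟩))).and hψ
      obtain ⟨χ, hχ, hχ'⟩ := hXd
      obtain ⟨y, hy, hy'⟩ := hC.sep hX'C
        (χ.subst (Fin.cons (Sum.inl 0) fun i => Sum.inr (v i))) (over_subst _ _ (by
          intro k
          refine Fin.cases ?_ (fun i => ?_) k
          · exact TOver.inl _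
          · exact tOver_inr.2 ⟨hXX _ (hv i).1, (hv i).2⟩) hχ)
      have h1 : ∀ z ∈ X', (Sat {x | x ∈ X'} id
          (χ.subst (Fin.cons (Sum.inl 0) fun i => Sum.inr (v i))) ![z] ↔
          z ∈ X ∧ SSat R {x | x ∈ B} {x | x ∈ X} φ (Fin.cons z v)) := by
        intro z hz
        rw [sat_subst]
        have h2 : (fun k => Sum.elim ![z] id ((Fin.cons (Sum.inl 0) fun i => Sum.inr (v i) :
            Fin (n + 1) → Fin 1 ⊕ ZFSet.{0}) k)) = Fin.cons z v := by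
          funext k
          refine Fin.cases ?_ (fun i => ?_) k
          · rfl
          · rfl
        rw [h2, hχ']
        · rfl
        · intro i
          refine Fin.cases ?_ (fun i => ?_) i
          · exact hz
          · exact hXX _ (hv i).1
      obtain ⟨z, hz, hzy⟩ := hch y hy ⟨a, (hy' a).2 ⟨hXX a ha, (h1 a (hXX a ha)).2 ⟨ha, h⟩⟩⟩
      obtain ⟨h3, h4⟩ := (hy' z).1 hzy
      obtain ⟨h5, h6⟩ := (h1 z h3).1 h4
      exact ⟨z, ⟨h5, hz⟩, (ih _ (hcons z h5 hz)).2 h6⟩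

end Pool.Agent.H640
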