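import Mathlib
import Pool.Agent.H676.LC.Stm

/-!
Project LC (helper676), board task LC-IDX2: relabelings of a wiring by families of even permutations
of the blocks and the index of a stabiliser (helper640, after TIdx of helper553).
-/

set_option autoImplicit false

namespace Pool.Agent.H640.LCIDX2

open Pool.Agent.H676.SC Pool.Agent.H676.ED Pool.Agent.H676.LC

variable {V D L : Type}

/-- composition of all functions with the relabeling of graphs -/
noncomputable def TT (σ : Equiv.Perm V)
    (p : Option (SimpleGraph V → Bool) × Multiset (L × (SimpleGraph V → D))) :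
    Option (SimpleGraph V → Bool) × Multiset (L × (SimpleGraph V → D)) :=
  (p.1.map fun f G => f (G.comap σ), p.2.map fun e => (e.1, fun G => e.2 (G.comap σ)))

lemma wiring_mul (C : Circuit V D L) (g : C.Gate) (σ ρ : Equiv.Perm V) :
    C.wiring g (σ * ρ) = TT σ (C.wiring g ρ) := by
  unfold Circuit.wiring TT
  refine Prod.ext ?_ ?_
  · show Option.map _ _ = Option.map _ (Option.map _ _)
    rw [Option.map_map]
    rfl
  · show Multiset.map _ _ = Multiset.map _ (Multiset.map _ _)
    rw [Multiset.map_map]
    rfl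

variable {X : Type}

lemma bpA_mul (p q : X → alternatingGroup (Fd 2)) : bpA (p * q) = bpA p * bpA q := by
  ext1 ⟨x, a⟩
  rfl

lemma bpA_one : bpA (1 : X → alternatingGroup (Fd 2)) = 1 := by
  ext1 ⟨x, a⟩
  rfl

lemma bpA_mem (p : X → alternatingGroup (Fd 2)) : bpA p ∈ blockEven X (Fd 2) := by
  intro x
  exact ⟨(p x : Equiv.Perm (Fd 2)), Equiv.Perm.mem_alternatingGroup.1 (p x).2, fun b => rfl⟩

/-- the stabiliser -/
noncomputable def KK (C : Circuit (X × Fd 2) D L) (g : C.Gate) :
    Subgroup (X → alternatingGroup (Fd 2)) where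
  carrier := {p | C.wiring g (bpA p) = C.wiring g 1}
  mul_mem' := by
    intro a b ha hb
    show C.wiring g (bpA (a * b)) = C.wiring g 1
    have ha' : C.wiring g (bpA a) = C.wiring g 1 := ha
    have hb' : C.wiring g (bpA b) = C.wiring g 1 := hb
    rw [bpA_mul, wiring_mul, hb', ← wiring_mul, mul_one, ha']
  one_mem' := by
    show C.wiring g (bpA 1) = C.wiring g 1
    rw [bpA_one]
  inv_mem' := by
    intro a ha
    show C.wiring g (bpA a⁻¹) = C.wiring g 1
    have ha' : C.wiring g (bpA a) = C.wiring g 1 := ha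
    have h0 : bpA a⁻¹ * bpA a = 1 := by rw [← bpA_mul, inv_mul_cancel, bpA_one]
    have h1 : C.wiring g (bpA a⁻¹) = TT (bpA a⁻¹) (C.wiring g 1) := by
      rw [← wiring_mul, mul_one]
    rw [h1, ← ha', ← wiring_mul, h0]
    exact ha'.symm

lemma mem_KK (C : Circuit (X × Fd 2) D L) (g : C.Gate) (p : X → alternatingGroup (Fd 2)) :
    p ∈ KK C g ↔ C.wiring g (bpA p) = C.wiring g 1 := Iff.rfl

lemma wiring_eq_iff (C : Circuit (X × Fd 2) D L) (g : C.Gate)
    (p q : X → alternatingGroup (Fd 2)) :
    C.wiring g (bpA p) = C.wiring g (bpA q) ↔ p⁻¹ * q ∈ KK C g := by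
  rw [mem_KK]
  constructor
  · intro h
    rw [bpA_mul, wiring_mul, ← h, ← wiring_mul, ← bpA_mul, inv_mul_cancel, bpA_one]
  · intro h
    have h1 : q = p * (p⁻¹ * q) := by group
    rw [h1, bpA_mul, wiring_mul, h, ← wiring_mul, mul_one]

theorem t_IDX2 : Pool.Agent.H676.LC.S_IDX2 := by
  intro X D L _ C g
  refine ⟨KK C g, ?_, fun p hp => hp⟩
  unfold numWiringsUnder Subgroup.index
  have key : ∀ a b : X → alternatingGroup (Fd 2), (QuotientGroup.leftRel (KK C g)) a b →
      (⟨C.wiring g (bpA a), Set.mem_image_of_mem _ (bpA_mem a)⟩ :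
        C.wiring g '' blockEven X (Fd 2)) =
        ⟨C.wiring g (bpA b), Set.mem_image_of_mem _ (bpA_mem b)⟩ := by
    intro a b hab
    rw [QuotientGroup.leftRel_apply] at hab
    exact Subtype.ext ((wiring_eq_iff C g a b).2 hab)
  haveI : Finite (Equiv.Perm (X × Fd 2)) := by
    classical
    infer_instance
  haveI : Finite (C.wiring g '' blockEven X (Fd 2)) :=
    ((Set.toFinite (blockEven X (Fd 2))).image _).to_subtype
  refine Nat.card_le_card_of_injective
    (Quotient.lift (fun a => (⟨C.wiring g (bpA a), Set.mem_image_of_mem _ (bpA_mem a)⟩ :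
        C.wiring g '' blockEven X (Fd 2))) key) ?_
  intro a b
  induction a using Quotient.inductionOn with
  | h a =>
    induction b using Quotient.inductionOn with
    | h b =>
      intro h
      apply Quotient.sound
      show QuotientGroup.leftRel (KK C g) a b
      rw [QuotientGroup.leftRel_apply]
      exact (wiring_eq_iff C g a b).1 (congrArg Subtype.val h)

end Pool.Agent.H640.LCIDX2
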