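import Pool.Agent.H640.Clo

/-!
# Limit levels of the cumulative hierarchy of a model
-/

set_option autoImplicit false
set_option linter.unreachableTactic false
set_option linter.unusedTactic false

namespace Pool.Agent.H640

open Pool.Agent.W868 Pool.Agent.W868.GM Pool.Agent.Y588
open ZFSet (pair)

theorem rank_upair_lt {x y : ZFSet.{0}} {ξ : Ordinal.{0}} (hx : x.rank < ξ) (hy : y.rank < ξ) :
    ({x, y} : ZFSet.{0}).rank < Order.succ ξ := by
  rw [Order.lt_succ_iff, ZFSet.rank_le_iff]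
  intro z hz
  rcases ZFSet.mem_pair.1 hz with rfl | rfl
  · exact hx
  · exact hy

theorem rank_pair_lt {x y : ZFSet.{0}} {ξ : Ordinal.{0}} (hx : x.rank < ξ) (hy : y.rank < ξ) :
    (pair x y).rank < Order.succ (Order.succ ξ) := by
  have h1 := rank_upair_lt hx hx
  rw [ZFSet.pair_eq_singleton] at h1
  exact rank_upair_lt h1 (rank_upair_lt hx hy)

theorem rank_of_pair {x y : ZFSet.{0}} {ξ : Ordinal.{0}} (h : (pair x y).rank < ξ) :
    x.rank < ξ ∧ y.rank < ξ := by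
  have h1 : ({x, y} : ZFSet.{0}) ∈ pair x y := by simp [pair]
  have h2 := (ZFSet.rank_lt_of_mem h1).trans h
  exact ⟨(ZFSet.rank_lt_of_mem (by simp)).trans h2, (ZFSet.rank_lt_of_mem (by simp)).trans h2⟩

theorem GR_rank {A a b u : ZFSet.{0}} {ξ : Ordinal.{0}} (ha : a.rank < ξ) (hb : b.rank < ξ) :
    ∀ i < 10, GR A i u a b →
      u.rank < Order.succ (Order.succ (Order.succ (Order.succ ξ))) := by
  intro i hi h
  have tr : ∀ {x y : ZFSet.{0}}, x ∈ y → y.rank < ξ → x.rank < ξ := fun hx hy =>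
    (ZFSet.rank_lt_of_mem hx).trans hy
  have up2 : ∀ {x : ZFSet.{0}} {ξ : Ordinal.{0}}, x.rank < ξ →
      x.rank < Order.succ (Order.succ ξ) := fun hx =>
    (hx.trans (Order.lt_succ _)).trans (Order.lt_succ _)
  have up : ∀ {x : ZFSet.{0}}, x.rank < ξ →
      x.rank < Order.succ (Order.succ (Order.succ (Order.succ ξ))) := fun hx => up2 (up2 hx)
  match i, hi, h with
  | 0, _, h => exact up (tr h ha)
  | 1, _, h =>
    rcases h with rfl | rfl
    · exact up ha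
    · exact up hb
  | 2, _, h =>
    obtain ⟨x, hx, h⟩ := h
    exact up (tr h (tr hx ha))
  | 3, _, h => exact up (tr h.1 ha)
  | 4, _, h =>
    obtain ⟨x, hx, y, hy, rfl⟩ := h
    exact up2 (rank_pair_lt (tr hx ha) (tr hy hb))
  | 5, _, h =>
    obtain ⟨p, hp, x, y, rfl, rfl⟩ := h
    exact up (rank_of_pair (tr hp ha)).2
  | 6, _, h =>
    obtain ⟨p, hp, x, y, rfl, rfl⟩ := h
    exact up (rank_of_pair (tr hp ha)).1
  | 7, _, h =>
    obtain ⟨x, hx, y, hy, c, d, rfl, rfl, rfl⟩ := h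
    exact rank_pair_lt (up2 (tr hx ha)) (rank_pair_lt (tr hx ha) (tr hy hb))
  | 8, _, h =>
    obtain ⟨z, hz, p, hp, x, y, rfl, c, d, rfl, rfl, rfl⟩ := h
    have h1 := rank_of_pair (tr hp hb)
    exact rank_pair_lt (up2 h1.1) (rank_pair_lt (tr hz ha) h1.2)
  | 9, _, h =>
    obtain ⟨p, hp, q, hq, x, y, rfl, rfl, -⟩ := h
    exact up (rank_of_pair (tr hp ha)).2

/-- `X` is the set of all sets in `M` of rank less than `ξ`. -/
def IsLev (M : Set ZFSet.{0}) (ξ : Ordinal.{0}) (X : ZFSet.{0}) : Prop :=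
  X ∈ M ∧ (∀ η < ξ, Order.succ η < ξ) ∧ ∀ x, x ∈ X ↔ x ∈ M ∧ x.rank < ξ

namespace IsLev

variable {M : Set ZFSet.{0}} (hM : IsZF M) {ξ : Ordinal.{0}} {X : ZFSet.{0}} (hX : IsLev M ξ X)

include hX

theorem trans (hM : IsZF M) : ∀ x ∈ X, ∀ y ∈ x, y ∈ X := by
  intro x hx y hy
  obtain ⟨h1, h2⟩ := (hX.2.2 x).1 hx
  exact (hX.2.2 y).2 ⟨hM.trans _ h1 _ hy, (ZFSet.rank_lt_of_mem hy).trans h2⟩

include hM in
theorem base : IsBase {x | x ∈ X} where
  trans := hX.trans hM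
  pairing := by
    intro x hx y hy
    obtain ⟨h1, h2⟩ := (hX.2.2 x).1 hx
    obtain ⟨h3, h4⟩ := (hX.2.2 y).1 hy
    refine (hX.2.2 _).2 ⟨hM.pairing _ h1 _ h3, ?_⟩
    exact (rank_upair_lt (ξ := max (Order.succ x.rank) (Order.succ y.rank))
      ((Order.lt_succ _).trans_le (le_max_left _ _))
      ((Order.lt_succ _).trans_le (le_max_right _ _))).trans
      (hX.2.1 _ (max_lt (hX.2.1 _ h2) (hX.2.1 _ h4)))
  union := by
    intro x hx
    obtain ⟨h1, h2⟩ := (hX.2.2 x).1 hx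
    refine (hX.2.2 _).2 ⟨hM.union _ h1, ?_⟩
    refine lt_of_le_of_lt ?_ h2
    rw [ZFSet.rank_le_iff]
    intro y hy
    obtain ⟨z, hz, hyz⟩ := ZFSet.mem_sUnion.1 hy
    exact (ZFSet.rank_lt_of_mem hyz).trans (ZFSet.rank_lt_of_mem hz)

include hM in
theorem cl : ∀ i < 10, ∀ a ∈ X, ∀ b ∈ X, ∃ y ∈ X, ∀ u, u ∈ y ↔ GR ∅ i u a b := by
  intro i hi a ha b hb
  obtain ⟨h1, h2⟩ := (hX.2.2 a).1 ha
  obtain ⟨h3, h4⟩ := (hX.2.2 b).1 hb
  set ζ := max (Order.succ a.rank) (Order.succ b.rank) with hζ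
  have h5 : a.rank < ζ := (Order.lt_succ _).trans_le (le_max_left _ _)
  have h6 : b.rank < ζ := (Order.lt_succ _).trans_le (le_max_right _ _)
  have h7 : ζ < ξ := max_lt (hX.2.1 _ h2) (hX.2.1 _ h4)
  have h8 := hX.2.1 _ (hX.2.1 _ (hX.2.1 _ (hX.2.1 _ h7)))
  have hB := hM.base
  have h9 : ZFSet.sep (fun u => GR ∅ i u a b) X ∈ M := by
    refine hM.sep_mem (Q := fun u => GR ∅ i u a b) ?_ hX.1
    exact dfn_GR hM hM.empty_mem i (DfnF.proj 0) (DfnF.const h1) (DfnF.const h3)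
  have htr : ∀ {x y : ZFSet.{0}}, y ∈ M → x ∈ y → x ∈ M := fun hy hx => hM.trans _ hy _ hx
  refine ⟨ZFSet.sep (fun u => GR ∅ i u a b) X, (hX.2.2 _).2 ⟨h9, ?_⟩, ?_⟩
  · refine lt_of_le_of_lt ?_ h8
    rw [ZFSet.rank_le_iff]
    intro u hu
    exact GR_rank h5 h6 i hi (ZFSet.mem_sep.1 hu).2
  · intro u
    rw [ZFSet.mem_sep]
    refine ⟨fun h => h.2, fun h => ⟨(hX.2.2 u).2 ⟨?_, (GR_rank h5 h6 i hi h).trans h8⟩, h⟩⟩
    match i, hi, h with
    | 0, _, h => exact htr h1 h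
    | 1, _, h =>
      rcases h with rfl | rfl
      · exact h1
      · exact h3
    | 2, _, h =>
      obtain ⟨x, hx, h⟩ := h
      exact htr (htr h1 hx) h
    | 3, _, h => exact htr h1 h.1
    | 4, _, h =>
      obtain ⟨x, hx, y, hy, rfl⟩ := h
      exact hM.pair_mem (htr h1 hx) (htr h3 hy)
    | 5, _, h =>
      obtain ⟨p, hp, x, y, rfl, rfl⟩ := h
      exact (hM.of_pair_mem (htr h1 hp)).2
    | 6, _, h =>
      obtain ⟨p, hp, x, y, rfl, rfl⟩ := h
      exact (hM.of_pair_mem (htr h1 hp)).1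
    | 7, _, h =>
      obtain ⟨x, hx, y, hy, c, d, rfl, rfl, rfl⟩ := h
      exact hM.pair_mem (htr h1 hx) (hM.pair_mem (htr h1 hx) (htr h3 hy))
    | 8, _, h =>
      obtain ⟨z, hz, p, hp, x, y, rfl, c, d, rfl, rfl, rfl⟩ := h
      have h10 := hM.of_pair_mem (htr h3 hp)
      exact hM.pair_mem h10.1 (hM.pair_mem (htr h1 hz) h10.2)
    | 9, _, h =>
      obtain ⟨p, hp, q, hq, x, y, rfl, rfl, -⟩ := h
      exact (hM.of_pair_mem (htr h1 hp)).2

end IsLev

theorem rk_toZFSet (x : ZFSet.{0}) : rk x = x.rank.toZFSet := rfl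

/-- There are arbitrarily high limit levels. -/
theorem exists_lev {M : Set ZFSet.{0}} (hM : IsZF M) {x : ZFSet.{0}} (hx : x ∈ M) :
    ∃ ξ X, IsLev M ξ X ∧ x ∈ X := by
  have hB := hM.base
  have hr : rk x ∈ M := rk_mem hM hx
  set lam := itr sc (rk x) ZFSet.omega with hlam
  have hsc : DfnF M M fun w : Fin 1 → ZFSet.{0} => sc (w 0) :=
    hB.insert' (DfnF.proj 0) (DfnF.proj 0)
  have hl : lam ∈ M := itr_mem_M hM hr hM.infinity hsc
  have hlo : lam.IsOrdinal := isOrdinal_itr (isOrdinal_rk x) (fun y hy => isOrdinal_sc hy) _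
  have h1 : rk x ∈ lam := by
    refine itr_step (nat_mem_omega 0) ?_
    have h2 : itr sc (rk x) (nat 0) = rk x := by
      ext y
      rw [mem_itr]
      constructor
      · rintro (h | ⟨u, hu, -⟩)
        · exact h
        · exact absurd hu (ZFSet.notMem_empty _)
      · exact Or.inl
    rw [h2]
    exact ZFSet.mem_insert _ _
  have h2 : ∀ y ∈ lam, sc y ∈ lam := by
    intro y hy
    obtain ⟨k, hk⟩ := mem_itr_omega hy
    have hko : (itr sc (rk x) (nat k)).IsOrdinal :=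
      isOrdinal_itr (isOrdinal_rk x) (fun y hy => isOrdinal_sc hy) _
    refine itr_step (nat_mem_omega k) ?_
    -- sc y ∈ sc (itr ..)
    have h3 : sc y ⊆ itr sc (rk x) (nat k) := by
      intro z hz
      rcases ZFSet.mem_insert_iff.1 hz with rfl | h
      · exact hk
      · exact hko.mem_trans h hk
    rcases (isOrdinal_sc (hko.mem hk)).subset_iff_eq_or_mem hko |>.1 h3 with h4 | h4
    · rw [h4]
      exact ZFSet.mem_insert _ _
    · exact ZFSet.mem_insert_of_mem _ h4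
  refine ⟨lam.rank, ZFSet.sep (fun y => rk y ∈ lam) (Vh M lam), ⟨?_, ?_, ?_⟩, ?_⟩
  · refine hM.sep_mem (Q := fun y => rk y ∈ lam) ?_ (Vh_mem hM hl)
    exact Dfn.mem (dfn_rk hM) (DfnF.const hl)
  · intro η hη
    have h3 : η.toZFSet ∈ lam := by
      rw [← hlo.toZFSet_rank_eq]
      exact Ordinal.toZFSet_mem_toZFSet_iff.2 hη
    have h4 := h2 _ h3
    have h5 : sc η.toZFSet = (Order.succ η).toZFSet := by
      rw [Ordinal.toZFSet_succ]
      rfl
    rw [h5, ← hlo.toZFSet_rank_eq, Ordinal.toZFSet_mem_toZFSet_iff] at h4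
    exact h4
  · intro y
    have h6 : rk y ∈ lam ↔ y.rank < lam.rank := by
      conv_lhs => rw [← hlo.toZFSet_rank_eq]
      exact Ordinal.toZFSet_mem_toZFSet_iff
    rw [ZFSet.mem_sep, h6]
    constructor
    · rintro ⟨h7, h8⟩
      obtain ⟨u, -, h9, -⟩ := mem_Vh.1 h7
      exact ⟨h9, h8⟩
    · rintro ⟨h7, h8⟩
      exact ⟨mem_Vh_of_rk hM _ h7 (h6.2 h8), h8⟩
  · exact ZFSet.mem_sep.2 ⟨mem_Vh_of_rk hM _ hx h1, h1⟩

end Pool.Agent.H640
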