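import Pool.Agent.H683.SC.PStm

/-!
# Project SC (helper683), task S_PCF: the list of conflicts in polynomial time (helper640)
-/

set_option autoImplicit false

namespace Pool.Agent.NPC.H640SC

open Turing Pool.Agent.H683.MC Pool.Agent.H683.SC Pool.Agent.H633R2 Pool.Agent.NPC.H683MC

theorem log2_eq (n : ℕ) : Nat.log 2 n = n.bits.length - 1 := by
  rw [Nat.size_eq_bits_len]
  rcases Nat.eq_zero_or_pos n with h | h
  · subst h; simp
  · have h1 : 0 < n.size := Nat.size_pos.2 h
    refine Nat.log_eq_of_pow_le_of_lt_pow ?_ ?_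
    · exact Nat.lt_size.1 (by omega)
    · rw [Nat.sub_add_cancel h1]
      exact Nat.lt_size_self n

theorem poly_log {α : Type} [TEnc α] {n : α → ℕ} (hn : Poly n) :
    Poly (fun a => Nat.log 2 (n a)) :=
  (Poly.sub (Poly.length (Poly.natBits hn)) (Poly.const 1)).congr fun a => (log2_eq _).symm

theorem poly_sOf : Poly sOf :=
  Poly.succ (Poly.div (poly_log (Poly.length Poly.id)) (Poly.const 6))

theorem poly_grq : Poly (fun x : Cnf × ℕ => grq x.1 x.2) := by
  unfold grq
  refine Poly.map (F := fun _ p => p.1) (Poly.filter (l := fun x : Cnf × ℕ => x.1.zipIdx)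
    (p := fun x p => decide (p.2 / sOf x.1 = x.2)) (Poly.zipIdx (Poly.fst Poly.id)) ?_)
    (Poly.fst (Poly.snd Poly.id))
  exact Poly.decide_eq (Poly.div (Poly.snd (Poly.snd Poly.id))
    (poly_sOf.comp (Poly.fst (Poly.fst Poly.id)))) (Poly.snd (Poly.fst Poly.id))

theorem poly_ocq : Poly (fun x : Cnf × ℕ => ocq x.1 x.2) := by
  unfold ocq
  exact Poly.map (F := fun _ p => p.1) (Poly.flatten poly_grq) (Poly.fst (Poly.snd Poly.id))

theorem sOf_pos (F : Cnf) : 0 < sOf F := Nat.succ_pos _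

theorem mem_of_mem_grq {F : Cnf} {C : List (ℕ × Bool)} {i : ℕ} (h : C ∈ grq F i) : C ∈ F := by
  unfold grq at h
  rw [List.mem_map] at h
  obtain ⟨⟨C', j⟩, h1, rfl⟩ := h
  rw [List.mem_filter] at h1
  have := h1.1
  rw [List.mk_mem_zipIdx_iff_getElem?] at this
  exact List.mem_of_getElem? this

theorem grq_length_le (F : Cnf) (i : ℕ) : (grq F i).length ≤ sOf F := by
  unfold grq
  rw [List.length_map]
  have h1 : ((F.zipIdx.filter fun p => decide (p.2 / sOf F = i)).map Prod.snd).Nodup := by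
    have h2 : (F.zipIdx.map Prod.snd).Nodup := by
      rw [List.zipIdx_map_snd]
      exact List.nodup_range'
    exact h2.sublist (List.Sublist.map _ List.filter_sublist)
  have h3 : ((F.zipIdx.filter fun p => decide (p.2 / sOf F = i)).map Prod.snd).toFinset ⊆
      Finset.Ico (i * sOf F) (i * sOf F + sOf F) := by
    intro j hj
    rw [List.mem_toFinset, List.mem_map] at hj
    obtain ⟨⟨C, j'⟩, h4, rfl⟩ := hj
    rw [List.mem_filter, decide_eq_true_eq] at h4
    have h5 := h4.2
    simp only at h5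
    rw [Finset.mem_Ico]
    have h6 := Nat.div_add_mod j' (sOf F)
    have h7 := Nat.mod_lt j' (sOf_pos F)
    rw [h5, mul_comm] at h6
    simp only
    omega
  have h8 := Finset.card_le_card h3
  rw [List.toFinset_card_of_nodup h1, List.length_map, Nat.card_Ico] at h8
  omega

theorem ocq_length_le {F : Cnf} (hF : IsThree F) (i : ℕ) : (ocq F i).length ≤ 3 * sOf F := by
  unfold ocq
  rw [List.length_map, List.length_flatten]
  have h1 : ∀ G : Cnf, (∀ C ∈ G, C.length ≤ 3) → (G.map List.length).sum ≤ 3 * G.length := by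
    intro G
    induction G with
    | nil => simp
    | cons C G ih =>
      intro h
      have h2 := ih fun C hC => h C (List.mem_cons_of_mem _ hC)
      have h3 := h C (by simp)
      simp
      omega
  have h2 := h1 (grq F i) fun C hC => hF C (mem_of_mem_grq hC)
  have h3 := grq_length_le F i
  omega

theorem poly_optsq (hK : UPoly KOf) {α : Type} [TEnc α] {F : α → {F : Cnf // IsThree F}}
    {i : α → ℕ} (hF : Poly F) (hi : Poly i) : Poly (fun a => opts (ocq (F a).1 (i a))) := by
  have hF' : Poly (fun a => (F a).1) :=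
    Poly.comp (g := fun x : {F : Cnf // IsThree F} => x.1) (f := F) (Poly.val _) hF
  refine poly_opts (l := fun a => ocq (F a).1 (i a))
    (w := fun a => List.replicate (KOf (F a).1) ()) ?_ ?_ ?_
  · exact Poly.comp (g := fun x : Cnf × ℕ => ocq x.1 x.2) (f := fun a => ((F a).1, i a)) poly_ocq
      (Poly.pair hF' hi)
  · exact UPoly.comp (n := KOf) (f := fun a => (F a).1) hK hF'
  · intro a
    rw [List.length_replicate]
    exact Nat.pow_le_pow_right (by norm_num) (ocq_length_le (F a).2 _)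

/-- the last test of `ok2` -/
theorem poly_tst {α : Type} [TEnc α] {F : α → Cnf} {i : α → ℕ} {L L' : α → List (ℕ × Bool)}
    (hF : Poly F) (hi : Poly i) (hL : Poly L) (hL' : Poly L') :
    Poly (fun a => cons2 (L a) (L' a) && (cons2 (L a) (L a) &&
      (grq (F a) (i a)).all fun C => C.any fun l => decide (l ∈ L a))) := by
  have h1 : Poly (fun a => cons2 (L a) (L' a)) :=
    Poly.comp (g := fun x : List (ℕ × Bool) × List (ℕ × Bool) => cons2 x.1 x.2)
      (f := fun a => (L a, L' a)) poly_cons2 (Poly.pair hL hL')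
  have h2 : Poly (fun a => cons2 (L a) (L a)) :=
    Poly.comp (g := fun x : List (ℕ × Bool) × List (ℕ × Bool) => cons2 x.1 x.2)
      (f := fun a => (L a, L a)) poly_cons2 (Poly.pair hL hL)
  have h3 : Poly (fun a => grq (F a) (i a)) :=
    Poly.comp (g := fun x : Cnf × ℕ => grq x.1 x.2) (f := fun a => (F a, i a)) poly_grq
      (Poly.pair hF hi)
  refine Poly.and h1 (Poly.and h2 ?_)
  refine Poly.all (l := fun a => grq (F a) (i a))
    (p := fun a C => C.any fun l => decide (l ∈ L a)) h3 ?_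
  refine Poly.any (l := fun x : α × List (ℕ × Bool) => x.2)
    (p := fun x l => decide (l ∈ L x.1)) (Poly.snd Poly.id) ?_
  have h4 : Poly (fun x : (α × List (ℕ × Bool)) × (ℕ × Bool) => L x.1.1) :=
    Poly.comp (g := L) (f := fun x : (α × List (ℕ × Bool)) × (ℕ × Bool) => x.1.1) hL
      (Poly.fst (Poly.fst Poly.id))
  exact (Poly.decide_mem (f := fun x : (α × List (ℕ × Bool)) × (ℕ × Bool) => x.2)
    (l := fun x => L x.1.1) (Poly.snd Poly.id) h4).congr fun a => decide_eq_decide.2 Iff.rfl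

theorem poly_ok2 (hK : UPoly KOf) :
    Poly (fun x : {F : Cnf // IsThree F} × ((ℕ × ℕ) × (ℕ × ℕ)) => ok2 x.1.1 x.2) := by
  have hv : Poly (fun x : {F : Cnf // IsThree F} => x.1) := Poly.val _
  have ho : Poly (fun x : {F : Cnf // IsThree F} × ((ℕ × ℕ) × (ℕ × ℕ)) =>
      (opts (ocq x.1.1 x.2.1.1))[x.2.1.2]?) :=
    Poly.getElem? (poly_optsq hK (F := fun x : {F : Cnf // IsThree F} × ((ℕ × ℕ) × (ℕ × ℕ)) => x.1)
      (i := fun x => x.2.1.1) (Poly.fst Poly.id) (Poly.fst (Poly.fst (Poly.snd Poly.id))))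
      (Poly.snd (Poly.fst (Poly.snd Poly.id)))
  have ho' : Poly (fun x : ({F : Cnf // IsThree F} × ((ℕ × ℕ) × (ℕ × ℕ))) × List (ℕ × Bool) =>
      (opts (ocq x.1.1.1 x.1.2.2.1))[x.1.2.2.2]?) :=
    Poly.getElem? (poly_optsq hK
      (F := fun x : ({F : Cnf // IsThree F} × ((ℕ × ℕ) × (ℕ × ℕ))) × List (ℕ × Bool) => x.1.1)
      (i := fun x => x.1.2.2.1) (Poly.fst (Poly.fst Poly.id))
      (Poly.fst (Poly.snd (Poly.snd (Poly.fst Poly.id)))))
      (Poly.snd (Poly.snd (Poly.snd (Poly.fst Poly.id))))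
  have ht : Poly (fun x : (({F : Cnf // IsThree F} × ((ℕ × ℕ) × (ℕ × ℕ))) × List (ℕ × Bool)) ×
      List (ℕ × Bool) => cons2 x.1.2 x.2 && (cons2 x.1.2 x.1.2 &&
      (grq x.1.1.1.1 x.1.1.2.1.1).all fun C => C.any fun l => decide (l ∈ x.1.2))) := by
    refine poly_tst (F := fun x : (({F : Cnf // IsThree F} × ((ℕ × ℕ) × (ℕ × ℕ))) ×
      List (ℕ × Bool)) × List (ℕ × Bool) => x.1.1.1.1) (i := fun x => x.1.1.2.1.1)
      (L := fun x => x.1.2) (L' := fun x => x.2) ?_ ?_ ?_ ?_
    · exact Poly.comp (g := fun x : {F : Cnf // IsThree F} => x.1)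
        (f := fun x : (({F : Cnf // IsThree F} × ((ℕ × ℕ) × (ℕ × ℕ))) × List (ℕ × Bool)) ×
          List (ℕ × Bool) => x.1.1.1) hv (Poly.fst (Poly.fst (Poly.fst Poly.id)))
    · exact Poly.fst (Poly.fst (Poly.snd (Poly.fst (Poly.fst Poly.id))))
    · exact Poly.snd (Poly.fst Poly.id)
    · exact Poly.snd Poly.id
  have h2 := Poly.optCases
    (o := fun x : ({F : Cnf // IsThree F} × ((ℕ × ℕ) × (ℕ × ℕ))) × List (ℕ × Bool) =>
      (opts (ocq x.1.1.1 x.1.2.2.1))[x.1.2.2.2]?) (g := fun _ => false)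
    (h := fun x L' => cons2 x.2 L' && (cons2 x.2 x.2 &&
      (grq x.1.1.1 x.1.2.1.1).all fun C => C.any fun l => decide (l ∈ x.2)))
    ho' (Poly.const false) ht
  have h1 := Poly.optCases
    (o := fun x : {F : Cnf // IsThree F} × ((ℕ × ℕ) × (ℕ × ℕ)) =>
      (opts (ocq x.1.1 x.2.1.1))[x.2.1.2]?) (g := fun _ => false)
    (h := fun x L => match (opts (ocq x.1.1 x.2.2.1))[x.2.2.2]? with
      | none => false
      | some L' => cons2 L L' && (cons2 L L &&
        (grq x.1.1 x.2.1.1).all fun C => C.any fun l => decide (l ∈ L)))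
    ho (Poly.const false) (h2.congr fun p => by
      cases (opts (ocq p.1.1.1 p.1.2.2.1))[p.1.2.2.2]? <;> rfl)
  refine h1.congr fun x => ?_
  unfold ok2
  cases (opts (ocq x.1.1 x.2.1.1))[x.2.1.2]? with
  | none => rfl
  | some L =>
    cases (opts (ocq x.1.1 x.2.2.1))[x.2.2.2]? with
    | none => rfl
    | some L' => rfl

theorem PCF : S_PPAR → S_PCF := by
  rintro ⟨hK, hg⟩
  unfold S_PCF cfOf
  have hv : Poly (fun x : {F : Cnf // IsThree F} => x.1) := Poly.val _
  refine Poly.filter (l := fun F : {F : Cnf // IsThree F} => quads (KOf F.1) (gOf F.1))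
    (p := fun F f => !ok2 F.1 f) ?_ (Poly.not (poly_ok2 hK))
  unfold quads
  have rK : ∀ {α : Type} [TEnc α] {F : α → {F : Cnf // IsThree F}}, Poly F →
      Poly (fun a => List.range (KOf (F a).1)) := by
    intro α _ F hF
    exact UPoly.range (UPoly.comp (n := KOf) (f := fun a => (F a).1) hK
      (Poly.comp (g := fun x : {F : Cnf // IsThree F} => x.1) (f := F) hv hF))
  have rg : ∀ {α : Type} [TEnc α] {F : α → {F : Cnf // IsThree F}}, Poly F →
      Poly (fun a => List.range (gOf (F a).1)) := by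
    intro α _ F hF
    exact UPoly.range (UPoly.comp (n := gOf) (f := fun a => (F a).1) hg
      (Poly.comp (g := fun x : {F : Cnf // IsThree F} => x.1) (f := F) hv hF))
  refine Poly.flatMap (l := fun F : {F : Cnf // IsThree F} => List.range (gOf F.1))
    (F := fun F i => (List.range (KOf F.1)).flatMap fun a =>
      (List.range (gOf F.1)).flatMap fun j => (List.range (KOf F.1)).map fun b => ((i, a), (j, b)))
    (rg Poly.id) ?_
  refine Poly.flatMap (l := fun x : {F : Cnf // IsThree F} × ℕ => List.range (KOf x.1.1))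
    (F := fun x a => (List.range (gOf x.1.1)).flatMap fun j =>
      (List.range (KOf x.1.1)).map fun b => ((x.2, a), (j, b)))
    (rK (Poly.fst Poly.id)) ?_
  refine Poly.flatMap
    (l := fun x : ({F : Cnf // IsThree F} × ℕ) × ℕ => List.range (gOf x.1.1.1))
    (F := fun x j => (List.range (KOf x.1.1.1)).map fun b => ((x.1.2, x.2), (j, b)))
    (rg (Poly.fst (Poly.fst Poly.id))) ?_
  refine Poly.map
    (l := fun x : (({F : Cnf // IsThree F} × ℕ) × ℕ) × ℕ => List.range (KOf x.1.1.1.1))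
    (F := fun x b => ((x.1.1.2, x.1.2), (x.2, b)))
    (rK (Poly.fst (Poly.fst (Poly.fst Poly.id)))) ?_
  exact Poly.pair (Poly.pair (Poly.snd (Poly.fst (Poly.fst (Poly.fst Poly.id))))
    (Poly.snd (Poly.fst (Poly.fst Poly.id))))
    (Poly.pair (Poly.snd (Poly.fst Poly.id)) (Poly.snd Poly.id))

end Pool.Agent.NPC.H640SC
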