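import Pool.Agent.H640.Hul

/-!
# Elementary substructures whose trace on the ground model is in the ground model
-/

set_option autoImplicit false
set_option linter.unreachableTactic false
set_option linter.unusedTactic false

namespace Pool.Agent.H640

open Pool.Agent.W868 Pool.Agent.W868.GM Pool.Agent.Y588
open ZFSet (pair)

/-- The first `n` basic operations. -/
def Op (A' : ZFSet.{0}) (n : ℕ) (i a b c : ZFSet.{0}) : Prop :=
  ∃ k < n, i = nat k ∧ ∀ u ∈ A', (u ∈ c ↔ GR ∅ k u a b)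

theorem dfn_Op {M : Set ZFSet.{0}} (hM : IsZF M) {A' : ZFSet.{0}} (hA : A' ∈ M) : ∀ (n : ℕ)
    {m : ℕ} {F G H K : (Fin m → ZFSet.{0}) → ZFSet.{0}}, DfnF M M F → DfnF M M G →
    DfnF M M H → DfnF M M K → Dfn M M fun v => Op A' n (F v) (G v) (H v) (K v)
  | 0, _, _, _, _, _, _, _, _, _ => by
    refine (Dfn.prop False).congr fun v _ => ?_
    refine ⟨fun h => h.elim, ?_⟩
    rintro ⟨k, hk, -⟩
    omega
  | n + 1, _, F, G, H, K, hF, hG, hH, hK => by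
    have hB := hM.base
    have h := dfn_Op hM hA n hF hG hH hK
    have h1 : Dfn M M fun v => F v = nat n ∧ ∀ u ∈ A', (u ∈ K v ↔ GR ∅ n u (G v) (H v)) := by
      refine (Dfn.eq hF (DfnF.const (hM.nat_mem n))).and ?_
      refine hB.ball (Q := fun u v => (u ∈ K v ↔ GR ∅ n u (G v) (H v))) (DfnF.const hA) ?_
      exact (Dfn.mem (DfnF.proj 0) hK.tail).iff
        (dfn_GR hM hM.empty_mem n (DfnF.proj 0) hG.tail hH.tail)
    refine (h.or h1).congr fun v _ => ?_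
    constructor
    · rintro (⟨k, hk, h2⟩ | h2)
      · exact ⟨k, by omega, h2⟩
      · exact ⟨n, by omega, h2⟩
    · rintro ⟨k, hk, h2⟩
      by_cases hkn : k = n
      · subst hkn
        exact Or.inr h2
      · exact Or.inl ⟨k, by omega, h2⟩

section

variable {V : Set ZFSet.{0}} (hV : IsZFC V) {P Le : ZFSet.{0}} (hP : IsForcing V P Le)
  {G : ZFSet.{0}} (hG : IsGeneric V P Le G)

include hV hP hG

/-- The main construction. -/
theorem star {μ : ZFSet.{0}} (hμ : μ ∈ V) (hμo : μ.IsOrdinal)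
    (hω : ZFSet.omega ⊆ μ) (hPμ : Inj V P μ) {A R B x : ZFSet.{0}} (hA : A ∈ ext V G)
    (hR : R ∈ ext V G) (hB : B ∈ V) (hBA : B ⊆ A) (hx : x ∈ A) :
    ∃ N ∈ ext V G, x ∈ N ∧ IsElem R {y | y ∈ B} {y | y ∈ N} {y | y ∈ A} ∧
      (∃ N₀ ∈ V, ∀ y, y ∈ N₀ ↔ y ∈ N ∧ y ∈ B) ∧ Inj (ext V G) N μ := by
  have hVz := hV.toIsZF
  have hW := isZFC_ext hV hP hG
  have hWz := hW.toIsZF
  have hsub := sub_ext hVz hP hG
  have hBs := hWz.base
  have hBW := hsub hB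
  obtain ⟨ξ₀, X', hX', hp⟩ := exists_lev hWz (hWz.pair_mem (hWz.pair_mem hA hR) hBW)
  have hXb := hX'.base hWz
  have hprX : ∀ {a b : ZFSet.{0}}, pair a b ∈ X' → a ∈ X' ∧ b ∈ X' := by
    intro a b h
    have h1 : ({a, b} : ZFSet.{0}) ∈ X' := hXb.trans _ h _ (by simp [pair])
    exact ⟨hXb.trans _ h1 _ (by simp), hXb.trans _ h1 _ (by simp)⟩
  have hBX := (hprX hp).2
  have hAX := (hprX (hprX hp).1).1
  have hRX := (hprX (hprX hp).1).2
  obtain ⟨ξ₁, A', hA', hXA⟩ := exists_lev hWz hX'.1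
  have hAt := hA'.trans hWz
  have hXsub : ∀ y ∈ X', y ∈ A' := fun y hy => hAt _ hXA _ hy
  obtain ⟨ζ, hζ, hζo, h, hh, hi⟩ := helper797_it.PG3.exists_wo hW hA'.1
  have hζV : ζ ∈ V := ord_of_ext hVz hζ hζo
  -- the values of `h`
  have hap : ∀ z ∈ A', pair z (ap h z) ∈ h ∧ ap h z ∈ ζ := by
    intro z hz
    obtain ⟨b, hb, hb'⟩ := fun_exists hi.1 hz
    rw [ap_func hi.1 hb']
    exact ⟨hb', hb⟩
  have hinj : ∀ z ∈ A', ∀ z' ∈ A', ap h z = ap h z' → z = z' := by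
    intro z hz z' hz' h1
    have h2 := (hap z hz).1
    rw [h1] at h2
    exact hi.2 _ _ _ h2 (hap z' hz').1
  -- the coding of the elements of `A'`
  classical
  let j : ZFSet.{0} → ZFSet.{0} := fun a => if a ∈ B then pair (nat 0) a else pair (nat 1) (ap h a)
  have hjd : DfnF (ext V G) (ext V G) fun w : Fin 1 → ZFSet.{0} => j (w 0) := by
    refine DfnF.ite (Dfn.mem (DfnF.proj 0) (DfnF.const hBW)) ?_ ?_
    · exact hBs.pair' (DfnF.const (hWz.nat_mem 0)) (DfnF.proj 0)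
    · exact hBs.pair' (DfnF.const (hWz.nat_mem 1)) (hWz.ap' (DfnF.const hh) (DfnF.proj 0))
  have hj' : ∀ {m : ℕ} {F : (Fin m → ZFSet.{0}) → ZFSet.{0}}, DfnF (ext V G) (ext V G) F →
      DfnF (ext V G) (ext V G) fun v => j (F v) := fun hF => DfnF.comp1 (f := j) hjd hF
  have hj0 : ∀ a ∈ B, j a = pair (nat 0) a := fun a ha => if_pos ha
  have h01 : nat 0 ≠ nat 1 := fun h => absurd (nat_injective h) (by omega)
  have hjinj : ∀ a ∈ A', ∀ b ∈ A', j a = j b → a = b := by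
    intro a ha b hb h1
    by_cases h2 : a ∈ B <;> by_cases h3 : b ∈ B
    · simp only [j, if_pos h2, if_pos h3] at h1
      exact (ZFSet.pair_inj.1 h1).2
    · simp only [j, if_pos h2, if_neg h3] at h1
      exact absurd (ZFSet.pair_inj.1 h1).1 h01
    · simp only [j, if_neg h2, if_pos h3] at h1
      exact absurd (ZFSet.pair_inj.1 h1).1.symm h01
    · simp only [j, if_neg h2, if_neg h3] at h1
      exact hinj a ha b hb (ZFSet.pair_inj.1 h1).2
  set Δ := ZFSet.prod {nat 0} B ∪ ZFSet.prod {nat 1} ζ with hΔdef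
  have hΔ : Δ ∈ V := hVz.union_mem (hVz.prod_mem (hVz.single_mem (hVz.nat_mem 0)) hB)
    (hVz.prod_mem (hVz.single_mem (hVz.nat_mem 1)) hζV)
  have hjΔ : ∀ a ∈ A', j a ∈ Δ := by
    intro a ha
    by_cases h2 : a ∈ B
    · simp only [j, if_pos h2]
      exact ZFSet.mem_union.2 (Or.inl (ZFSet.pair_mem_prod.2 ⟨ZFSet.mem_singleton.2 rfl, h2⟩))
    · simp only [j, if_neg h2]
      exact ZFSet.mem_union.2 (Or.inr (ZFSet.pair_mem_prod.2
        ⟨ZFSet.mem_singleton.2 rfl, (hap a ha).2⟩))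
  -- the graph of the operations
  set D := ZFSet.prod ZFSet.omega (ZFSet.prod Δ Δ) with hDdef
  have hD : D ∈ V := hVz.prod_mem hVz.infinity (hVz.prod_mem hΔ hΔ)
  let Ch : ZFSet.{0} → ZFSet.{0} → Prop := fun a c => c ∈ a ∧ ∀ z ∈ a, ¬ ap h z ∈ ap h c
  let E : ZFSet.{0} := ZFSet.sep (fun t => ∃ a ∈ A', ∃ b ∈ A', ∃ c ∈ A', ∃ i ∈ ZFSet.omega,
    t = pair (pair i (pair (j a) (j b))) (j c) ∧
      (Op A' 10 i a b c ∨ (i = nat 10 ∧ Ch a c))) (ZFSet.prod D Δ)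
  have hE : E ∈ ext V G := by
    refine hWz.sep_mem ?_ (hWz.prod_mem (hsub hD) (hsub hΔ))
    apply hBs.bex (DfnF.const hA'.1)
    apply hBs.bex (DfnF.const hA'.1)
    apply hBs.bex (DfnF.const hA'.1)
    apply hBs.bex (DfnF.const hWz.infinity)
    refine Dfn.and ?_ ?_
    · refine Dfn.eq (DfnF.proj 4) (hBs.pair' (hBs.pair' (DfnF.proj 0)
        (hBs.pair' (hj' (DfnF.proj 3)) (hj' (DfnF.proj 2)))) (hj' (DfnF.proj 1)))
    · refine (dfn_Op hWz hA'.1 10 (DfnF.proj 0) (DfnF.proj 3) (DfnF.proj 2)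
        (DfnF.proj 1)).or ((Dfn.eq (DfnF.proj 0) (DfnF.const (hWz.nat_mem 10))).and ?_)
      refine (Dfn.mem (DfnF.proj 1) (DfnF.proj 3)).and ?_
      apply hBs.ball (DfnF.proj 3)
      exact (Dfn.mem (hWz.ap' (DfnF.const hh) (DfnF.proj 0))
        (hWz.ap' (DfnF.const hh) (DfnF.proj 2))).not
  have hEf : Fu E := by
    intro d e e' h1 h2
    obtain ⟨-, a, ha, b, hb, c, hc, i, hi', h3, h4⟩ := ZFSet.mem_sep.1 h1
    obtain ⟨-, a', ha', b', hb', c', hc', i', hi'', h5, h6⟩ := ZFSet.mem_sep.1 h2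
    obtain ⟨g3, g4⟩ := ZFSet.pair_inj.1 h3
    obtain ⟨g5, g6⟩ := ZFSet.pair_inj.1 h5
    rw [g3] at g5
    obtain ⟨rfl, g7⟩ := ZFSet.pair_inj.1 g5
    obtain ⟨h7, h8⟩ := ZFSet.pair_inj.1 g7
    have h9 := hjinj _ ha _ ha' h7
    have h10 := hjinj _ hb _ hb' h8
    subst h9 h10
    have h11 : c = c' := by
      rcases h4 with ⟨k, hk, rfl, h4⟩ | ⟨rfl, h4⟩
      · rcases h6 with ⟨k', hk', h12, h6⟩ | ⟨h12, h6⟩
        · have h13 := nat_injective h12
          subst h13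
          ext u
          constructor
          · intro hu
            have hu' := hAt _ hc _ hu
            exact (h6 u hu').2 ((h4 u hu').1 hu)
          · intro hu
            have hu' := hAt _ hc' _ hu
            exact (h4 u hu').2 ((h6 u hu').1 hu)
        · have h13 := nat_injective h12
          omega
      · rcases h6 with ⟨k', hk', h12, h6⟩ | ⟨-, h6⟩
        · have h13 := nat_injective h12
          omega
        · have h14 := h4.2 c' h6.1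
          have h15 := h6.2 c h4.1
          refine hinj c hc c' hc' ?_
          rcases (hζo.mem (hap c hc).2).mem_trichotomous (hζo.mem (hap c' hc').2) with
            h16 | h16 | h16
          · exact absurd h16 h15
          · exact h16
          · exact absurd h16 h14
    rw [g4, g6, h11]
  obtain ⟨K, hK, hKs, hKf, hKc⟩ := cover hVz hP hG hD hΔ hE
    (fun z hz => (ZFSet.mem_sep.1 hz).1) hEf
  -- the closure
  have hxX : x ∈ X' := hXb.trans _ hAX _ hx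
  have hjV : ∀ a ∈ A', j a ∈ V := fun a ha => hVz.trans _ hΔ _ (hjΔ a ha)
  have hxA' := hXsub x hxX
  have hAA' := hXsub A hAX
  have hRA' := hXsub R hRX
  have hBA' := hXsub B hBX
  obtain ⟨N', hN', hSN, hN'μ, hcl⟩ := exists_clo hV hμ hμo hω (P := P) (K := K)
    (S := insert (j x) (insert (j A) (insert (j R) (insert (j B) (insert (j X') ∅)))))
    hP.mem hK
    (hVz.insert_mem (hjV _ hxA') (hVz.insert_mem (hjV _ hAA') (hVz.insert_mem (hjV _ hRA')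
      (hVz.insert_mem (hjV _ hBA') (hVz.insert_mem (hjV _ hXA) hVz.empty_mem)))))
    hPμ
    (by
      have h0 : Inj V ∅ μ := Inj.of_subset hVz hVz.empty_mem hμ (ZFSet.empty_subset _)
      have h1 := helper797_it.PG3.inj_insert hV hμ hμo hω (hjV _ hXA) hVz.empty_mem h0
      have e1 := hVz.insert_mem (hjV _ hXA) hVz.empty_mem
      have h2 := helper797_it.PG3.inj_insert hV hμ hμo hω (hjV _ hBA') e1 h1
      have e2 := hVz.insert_mem (hjV _ hBA') e1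
      have h3 := helper797_it.PG3.inj_insert hV hμ hμo hω (hjV _ hRA') e2 h2
      have e3 := hVz.insert_mem (hjV _ hRA') e2
      have h4 := helper797_it.PG3.inj_insert hV hμ hμo hω (hjV _ hAA') e3 h3
      have e4 := hVz.insert_mem (hjV _ hAA') e3
      exact helper797_it.PG3.inj_insert hV hμ hμo hω (hjV _ hxA') e4 h4)
  -- closure under the operations
  have hclE : ∀ i ∈ ZFSet.omega, ∀ a ∈ A', j a ∈ N' → ∀ b ∈ A', j b ∈ N' → ∀ c ∈ A',
      (Op A' 10 i a b c ∨ (i = nat 10 ∧ Ch a c)) → j c ∈ N' := by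
    intro i hi' a ha haN b hb hbN c hc h1
    have h2 : pair (pair i (pair (j a) (j b))) (j c) ∈ E :=
      ZFSet.mem_sep.2 ⟨ZFSet.pair_mem_prod.2 ⟨ZFSet.pair_mem_prod.2 ⟨hi',
        ZFSet.pair_mem_prod.2 ⟨hjΔ a ha, hjΔ b hb⟩⟩, hjΔ c hc⟩, a, ha, b, hb, c, hc, i, hi',
        rfl, h1⟩
    obtain ⟨p, hp', h3⟩ := hKc _ _ h2
    have h4 := hcl i hi' _ haN _ hbN p hp'
    rwa [ap_fu hKs hKf h3] at h4
  set C : Set ZFSet.{0} := {a | a ∈ A' ∧ j a ∈ N'} with hCdef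
  have hXC : X' ∈ C := ⟨hXA, hSN (by simp)⟩
  have hHl : Hl C := by
    refine ⟨⟨X', hXC⟩, ?_⟩
    intro i hi' a ha b hb
    obtain ⟨y, hy, hy'⟩ := hA'.cl hWz i hi' a ha.1 b hb.1
    refine ⟨y, ⟨hy, ?_⟩, hy'⟩
    exact hclE (nat i) (nat_mem_omega i) a ha.1 ha.2 b hb.1 hb.2 y hy
      (Or.inl ⟨i, hi', rfl, fun u _ => hy' u⟩)
  have hch : ∀ y ∈ C, (∃ z, z ∈ y) → ∃ z ∈ C, z ∈ y := by
    intro y hy hne
    obtain ⟨z, hz, hmin⟩ := (InvImage.wf (ap h) ZFSet.mem_wf).has_min {z | z ∈ y} hne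
    have hzA := hAt _ hy.1 _ hz
    refine ⟨z, ⟨hzA, ?_⟩, hz⟩
    exact hclE (nat 10) (nat_mem_omega 10) y hy.1 hy.2 y hy.1 hy.2 z hzA
      (Or.inr ⟨rfl, hz, fun z' hz' => hmin z' hz'⟩)
  have hel := hull_elem hHl hch hXC hXb hRX hBX hAX ⟨hRA', hSN (by simp)⟩
    ⟨hBA', hSN (by simp)⟩ ⟨hAA', hSN (by simp)⟩
  have hN'W := hsub hN'
  have hNd : Dfn (ext V G) (ext V G) fun w : Fin 1 → ZFSet.{0} => j (w 0) ∈ N' :=
    Dfn.mem hjd (DfnF.const hN'W)
  have hAsub : ∀ a ∈ A, a ∈ A' := fun a ha => hAt _ hAA' _ ha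
  refine ⟨ZFSet.sep (fun a => j a ∈ N') A, hWz.sep_mem hNd hA,
    ZFSet.mem_sep.2 ⟨hx, hSN (by simp)⟩, ?_, ?_, ?_⟩
  · have h1 : {y | y ∈ ZFSet.sep (fun a => j a ∈ N') A} = {y | y ∈ A ∧ y ∈ C} := by
      ext y
      rw [Set.mem_ofPred_eq, Set.mem_ofPred_eq, ZFSet.mem_sep]
      exact ⟨fun h => ⟨h.1, hAsub _ h.1, h.2⟩, fun h => ⟨h.1, h.2.2⟩⟩
    rw [h1]
    exact hel
  · have h0 : Dfn V V fun w : Fin 1 → ZFSet.{0} => pair (nat 0) (w 0) ∈ N' := Dfn.mem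
      (hVz.base.pair' (DfnF.const (hVz.nat_mem 0)) (DfnF.proj 0)) (DfnF.const hN')
    refine ⟨ZFSet.sep (fun y => pair (nat 0) y ∈ N') B,
      hVz.sep_mem (Q := fun y => pair (nat 0) y ∈ N') h0 hB, ?_⟩
    intro y
    rw [ZFSet.mem_sep, ZFSet.mem_sep]
    constructor
    · rintro ⟨h1, h2⟩
      refine ⟨⟨hBA h1, ?_⟩, h1⟩
      rw [hj0 y h1]
      exact h2
    · rintro ⟨⟨h1, h2⟩, h3⟩
      refine ⟨h3, ?_⟩
      rw [hj0 y h3] at h2
      exact h2
  · have h1 : Inj (ext V G) (ZFSet.sep (fun a => j a ∈ N') A) N' := by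
      refine Inj.of_fun hWz (hWz.sep_mem hNd hA) hN'W (h := j) hjd
        (fun a ha => (ZFSet.mem_sep.1 ha).2) ?_
      intro a ha a' ha' h2
      exact hjinj a (hAsub a (ZFSet.mem_sep.1 ha).1) a' (hAsub a' (ZFSet.mem_sep.1 ha').1) h2
    exact Inj.trans hWz (hWz.sep_mem hNd hA) (hsub hμ) h1 (helper797_it.PG3.Inj.up hsub hN'μ)

end

end Pool.Agent.H640
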