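import Pool.Agent.H640.Str

/-!
# The tree of the bounded constructible subsets of `ω₁`
-/

set_option autoImplicit false
set_option linter.unreachableTactic false
set_option linter.unusedTactic false

namespace Pool.Agent.H640

open Pool.Agent.W868 Pool.Agent.W868.GM Pool.Agent.Y588
open ZFSet (pair)

/-! ### The cardinal `ω₁` of a model of ZFC -/

section aleph

variable {V : Set ZFSet.{0}} (hV : IsZFC V) {κ : ZFSet.{0}} (hκ : IsAleph1 V κ)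

include hκ

theorem ctb_of_mem {α : ZFSet.{0}} (h : α ∈ κ) : Inj V α ZFSet.omega := hκ.2.2.2 α h

theorem not_ctb : ¬ Inj V κ ZFSet.omega := hκ.2.2.1

theorem union_mem' {α β : ZFSet.{0}} (h : α ∈ κ) (h' : β ∈ κ) : α ∪ β ∈ κ :=
  helper797_it.PG3.max_mem hκ.2.1 h h'

include hV

theorem mem_of_ctb {α : ZFSet.{0}} (hα : α ∈ V) (hαo : α.IsOrdinal)
    (h : Inj V α ZFSet.omega) : α ∈ κ := by
  have hM := hV.toIsZF
  rcases hαo.mem_trichotomous hκ.2.1 with h1 | h1 | h1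
  · exact h1
  · subst h1
    exact absurd h (not_ctb hκ)
  · exact absurd (inj_mono hM hκ.1 hα hM.infinity (hαo.subset_of_mem h1) h) (not_ctb hκ)

theorem omega_mem : ZFSet.omega ∈ κ :=
  mem_of_ctb hV hκ hV.infinity isOrdinal_omega
    (Inj.of_subset hV.toIsZF hV.infinity hV.infinity fun _ h => h)

theorem omega_sub : ZFSet.omega ⊆ κ := hκ.2.1.subset_of_mem (omega_mem hV hκ)

theorem sc_mem' {α : ZFSet.{0}} (h : α ∈ κ) : sc α ∈ κ := by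
  have hM := hV.toIsZF
  have hα := hM.trans _ hκ.1 _ h
  exact mem_of_ctb hV hκ (hM.sc_mem hα) (isOrdinal_sc (hκ.2.1.mem h))
    (helper797_it.PG3.inj_insert hV hM.infinity isOrdinal_omega (fun _ h => h) hα hα
      (ctb_of_mem hκ h))

/-- The cardinal `ω₁` is regular. -/
theorem reg {β g : ZFSet.{0}} (hβ : β ∈ κ) (hg : g ∈ V) (h : ∀ ξ ∈ β, ap g ξ ∈ κ) :
    ZFSet.sUnion (im (ap g) β) ∈ κ := by
  have hM := hV.toIsZF
  have hβV := hM.trans _ hκ.1 _ hβ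
  have hd : DfnF V V fun w : Fin 1 → ZFSet.{0} => ap g (w 0) :=
    hM.ap' (DfnF.const hg) (DfnF.proj 0)
  refine mem_of_ctb hV hκ (hM.union _ (hM.im_mem hβV hd)) ?_ ?_
  · refine isOrdinal_sUnion fun y hy => ?_
    obtain ⟨ξ, hξ, rfl⟩ := mem_im.1 hy
    exact hκ.2.1.mem (h ξ hξ)
  · exact inj_iUnion hV hM.infinity isOrdinal_omega (fun _ h => h) hβV (ctb_of_mem hκ hβ) hd
      fun ξ hξ => ctb_of_mem hκ (h ξ hξ)

end aleph

/-! ### The tree -/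

/-- The conditions: the pairs `(α, a)` where `α ∈ κ` and `a ∈ L` is a subset of `α`. -/
noncomputable def Tr (L : Set ZFSet.{0}) (κ : ZFSet.{0}) : ZFSet.{0} :=
  ZFSet.sep (fun u => sn u ⊆ fs u) (ZFSet.prod κ (pwM L κ))

/-- The order: end-extension. -/
noncomputable def TLe (P : ZFSet.{0}) : ZFSet.{0} :=
  ZFSet.sep (fun t => fs (sn t) ⊆ fs (fs t) ∧
    ∀ ξ ∈ fs (sn t), (ξ ∈ sn (fs t) ↔ ξ ∈ sn (sn t))) (ZFSet.prod P P)

theorem mem_TLe {P u v : ZFSet.{0}} : pair u v ∈ TLe P ↔ u ∈ P ∧ v ∈ P ∧ fs v ⊆ fs u ∧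
    ∀ ξ ∈ fs v, (ξ ∈ sn u ↔ ξ ∈ sn v) := by
  rw [TLe, ZFSet.mem_sep, ZFSet.pair_mem_prod, fs_pair, sn_pair, and_assoc]

section tree

variable {L : Set ZFSet.{0}} (hL : IsZF L) {κ : ZFSet.{0}} (hκL : κ ∈ L) (hκo : κ.IsOrdinal)
  (hlim : ∀ α ∈ κ, sc α ∈ κ)

theorem pair_mem_Tr (hκo : κ.IsOrdinal) {α a : ZFSet.{0}} :
    pair α a ∈ Tr L κ ↔ α ∈ κ ∧ a ∈ L ∧ a ⊆ α := by
  rw [Tr, ZFSet.mem_sep, ZFSet.pair_mem_prod, fs_pair, sn_pair, mem_pwM]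
  constructor
  · rintro ⟨⟨h1, h2, -⟩, h3⟩
    exact ⟨h1, h2, h3⟩
  · rintro ⟨h1, h2, h3⟩
    exact ⟨⟨h1, h2, fun x hx => hκo.mem_trans (h3 hx) h1⟩, h3⟩

theorem mem_Tr (hκo : κ.IsOrdinal) {u : ZFSet.{0}} (h : u ∈ Tr L κ) :
    u = pair (fs u) (sn u) ∧ fs u ∈ κ ∧ sn u ∈ L ∧ sn u ⊆ fs u := by
  have h1 := h
  rw [Tr, ZFSet.mem_sep] at h1
  obtain ⟨α, hα, a, ha, rfl⟩ := ZFSet.mem_prod.1 h1.1
  rw [fs_pair, sn_pair]
  exact ⟨rfl, (pair_mem_Tr hκo).1 h⟩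

include hL hκL

theorem Tr_mem : Tr L κ ∈ L := by
  have hB := hL.base
  refine hL.sep_mem (Q := fun u => sn u ⊆ fs u) ?_ (hL.prod_mem hκL (pwM_mem hL hκL))
  exact hB.subset' (hL.sn' (DfnF.proj 0)) (hL.fs' (DfnF.proj 0))

theorem TLe_mem : TLe (Tr L κ) ∈ L := by
  have hB := hL.base
  have hT := Tr_mem hL hκL
  refine hL.sep_mem (Q := fun t => fs (sn t) ⊆ fs (fs t) ∧
    ∀ ξ ∈ fs (sn t), (ξ ∈ sn (fs t) ↔ ξ ∈ sn (sn t))) ?_ (hL.prod_mem hT hT)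
  refine (hB.subset' (hL.fs' (hL.sn' (DfnF.proj 0))) (hL.fs' (hL.fs' (DfnF.proj 0)))).and ?_
  apply hB.ball (hL.fs' (hL.sn' (DfnF.proj 0)))
  exact (Dfn.mem (DfnF.proj 0) (hL.sn' (hL.fs' (DfnF.proj 1)))).iff
    (Dfn.mem (DfnF.proj 0) (hL.sn' (hL.sn' (DfnF.proj 1))))

include hκo

theorem isForcing_Tr (hne : ∅ ∈ κ) : IsForcing L (Tr L κ) (TLe (Tr L κ)) where
  mem := Tr_mem hL hκL
  le_mem := TLe_mem hL hκL
  refl := fun p hp => mem_TLe.2 ⟨hp, hp, fun _ h => h, fun _ _ => Iff.rfl⟩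
  trans := by
    intro p hp q hq r hr hrq hqp
    obtain ⟨-, -, h1, h2⟩ := mem_TLe.1 hrq
    obtain ⟨-, -, h3, h4⟩ := mem_TLe.1 hqp
    exact mem_TLe.2 ⟨hr, hp, fun x hx => h1 (h3 hx), fun ξ hξ =>
      (h2 ξ (h3 hξ)).trans (h4 ξ hξ)⟩
  top := by
    have h1 : pair ∅ ∅ ∈ Tr L κ :=
      (pair_mem_Tr hκo).2 ⟨hne, hL.empty_mem, ZFSet.empty_subset _⟩
    refine ⟨_, h1, fun p hp => mem_TLe.2 ⟨hp, h1, ?_, ?_⟩⟩
    · rw [fs_pair]
      exact ZFSet.empty_subset _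
    · intro ξ hξ
      rw [fs_pair] at hξ
      exact absurd hξ (ZFSet.notMem_empty _)

/-- The two one-point extensions of a condition. -/
theorem ext_pt (hlim : ∀ α ∈ κ, sc α ∈ κ) {p : ZFSet.{0}} (hp : p ∈ Tr L κ) :
    (pair (sc (fs p)) (sn p) ∈ Tr L κ ∧ pair (pair (sc (fs p)) (sn p)) p ∈ TLe (Tr L κ)) ∧
    (pair (sc (fs p)) (insert (fs p) (sn p)) ∈ Tr L κ ∧
      pair (pair (sc (fs p)) (insert (fs p) (sn p))) p ∈ TLe (Tr L κ)) ∧ fs p ∉ sn p := by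
  obtain ⟨h1, h2, h3, h4⟩ := mem_Tr hκo hp
  have h5 : fs p ∉ sn p := fun h => ZFSet.mem_irrefl _ (h4 h)
  have h6 : fs p ⊆ sc (fs p) := fun x hx => ZFSet.mem_insert_of_mem _ hx
  have h7 : pair (sc (fs p)) (sn p) ∈ Tr L κ :=
    (pair_mem_Tr hκo).2 ⟨hlim _ h2, h3, fun x hx => h6 (h4 hx)⟩
  have hfL : fs p ∈ L := hL.trans _ hκL _ h2
  have h8 : pair (sc (fs p)) (insert (fs p) (sn p)) ∈ Tr L κ := by
    refine (pair_mem_Tr hκo).2 ⟨hlim _ h2, hL.insert_mem hfL h3, fun x hx => ?_⟩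
    rcases ZFSet.mem_insert_iff.1 hx with rfl | h
    · exact ZFSet.mem_insert _ _
    · exact h6 (h4 h)
  refine ⟨⟨h7, mem_TLe.2 ⟨h7, hp, ?_, ?_⟩⟩, ⟨h8, mem_TLe.2 ⟨h8, hp, ?_, ?_⟩⟩, h5⟩
  · rw [fs_pair]
    exact h6
  · intro ξ _
    rw [sn_pair]
  · rw [fs_pair]
    exact h6
  · intro ξ hξ
    rw [sn_pair, ZFSet.mem_insert_iff]
    constructor
    · rintro (rfl | h)
      · exact absurd hξ (ZFSet.mem_irrefl _)
      · exact h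
    · exact Or.inr

/-- A generic filter adds a new subset of `κ`. -/
theorem new_sub (hlim : ∀ α ∈ κ, sc α ∈ κ) {M : Set ZFSet.{0}} (hM : IsZF M) (hLM : L ⊆ M)
    (hne : ∅ ∈ κ) {G : ZFSet.{0}} (hG : IsGeneric M (Tr L κ) (TLe (Tr L κ)) G) :
    ZFSet.sUnion (im sn G) ⊆ κ ∧ ZFSet.sUnion (im sn G) ∈ ext M G ∧
      ZFSet.sUnion (im sn G) ∉ M := by
  have hB := hM.base
  have hPL := isForcing_Tr hL hκL hκo hne
  have hP : IsForcing M (Tr L κ) (TLe (Tr L κ)) :=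
    ⟨hLM hPL.mem, hLM hPL.le_mem, hPL.refl, hPL.trans, hPL.top⟩
  have hW := isZF_ext hM hP hG
  have hGe := gen_mem_ext hM hP hG
  set x := ZFSet.sUnion (im sn G) with hx
  refine ⟨?_, ?_, ?_⟩
  · intro ξ hξ
    obtain ⟨y, hy, hξy⟩ := ZFSet.mem_sUnion.1 hξ
    obtain ⟨u, hu, rfl⟩ := mem_im.1 hy
    obtain ⟨-, h2, -, h4⟩ := mem_Tr hκo (hG.sub hu)
    exact hκo.mem_trans (h4 hξy) h2
  · exact hW.union _ (hW.im_mem hGe (hW.sn' (DfnF.proj 0)))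
  · intro hxM
    -- the values of the conditions in the filter
    have h1 : ∀ u ∈ G, ∀ ξ ∈ fs u, (ξ ∈ sn u ↔ ξ ∈ x) := by
      intro u hu ξ hξ
      constructor
      · exact fun h => ZFSet.mem_sUnion.2 ⟨_, mem_im.2 ⟨u, hu, rfl⟩, h⟩
      · intro h
        obtain ⟨y, hy, hξy⟩ := ZFSet.mem_sUnion.1 h
        obtain ⟨w, hw, rfl⟩ := mem_im.1 hy
        obtain ⟨s, hs, hsu, hsw⟩ := hG.dir u hu w hw
        obtain ⟨-, -, -, h5⟩ := mem_TLe.1 hsu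
        obtain ⟨-, -, -, h6⟩ := mem_TLe.1 hsw
        obtain ⟨-, -, -, h7⟩ := mem_Tr hκo (hG.sub hw)
        exact (h5 ξ hξ).1 ((h6 ξ (h7 hξy)).2 hξy)
    obtain ⟨u, huG, hu⟩ := gen_dense hM hP hG
      (Q := fun u => ∃ ξ ∈ fs u, ¬ (ξ ∈ sn u ↔ ξ ∈ x)) (by
        refine hB.bex (Q := fun ξ w => ¬ (ξ ∈ sn (w 0) ↔ ξ ∈ x)) (hM.fs' (DfnF.proj 0)) ?_
        exact ((Dfn.mem (DfnF.proj 0) (hM.sn' (DfnF.proj 1))).iff
          (Dfn.mem (DfnF.proj 0) (DfnF.const hxM))).not) (by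
        intro q hq
        obtain ⟨⟨h2, h3⟩, ⟨h4, h5⟩, h6⟩ := ext_pt hL hκL hκo hlim hq
        by_cases h7 : fs q ∈ x
        · refine ⟨_, h2, h3, fs q, ?_, ?_⟩
          · rw [fs_pair]
            exact ZFSet.mem_insert _ _
          · rw [sn_pair]
            exact fun h => h6 (h.2 h7)
        · refine ⟨_, h4, h5, fs q, ?_, ?_⟩
          · rw [fs_pair]
            exact ZFSet.mem_insert _ _
          · rw [sn_pair]
            exact fun h => h7 (h.1 (ZFSet.mem_insert _ _)))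
    obtain ⟨ξ, hξ, h2⟩ := hu
    exact h2 (h1 u huG ξ hξ)

end tree

/-! ### The size of the tree -/

theorem tree_small {V : Set ZFSet.{0}} (hV : IsZFC V) {κ : ZFSet.{0}} (hκ : IsAleph1 V κ) :
    Inj V (Tr (LC V ∅) κ) κ := by
  have hM := hV.toIsZF
  have hL : IsLA ∅ (LC V ∅) := isLA_LC hM hM.empty_mem hM.empty_mem ZFSet.isOrdinal_empty
    (ZFSet.empty_subset _)
  have hLV : LC V ∅ ⊆ V := LC_subset hM hM.empty_mem
  have hκL : κ ∈ LC V ∅ := ord_LC hM hM.empty_mem hκ.1 hκ.2.1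
  have hωκ := omega_sub hV hκ
  have h1 : Inj V (Lv ∅ κ) κ := helper797_it.PG3.Inj.up hLV
    (Lv_small hL hκL hκ.2.1 hωκ hκL hκ.2.1 (Inj.of_subset hL.zf hκL hκL fun _ h => h))
  have hLv : Lv ∅ κ ∈ V := Lv_mem_M hM hM.empty_mem hκ.1
  have hTV : Tr (LC V ∅) κ ∈ V := hLV (Tr_mem hL.zf hκL)
  refine Inj.trans hM hTV hκ.1 (Inj.of_subset hM hTV (hM.prod_mem hκ.1 hLv) ?_)
    (inj_prod2 hκ.1 hM hκ.2.1 hωκ hκ.1 hLv (Inj.of_subset hM hκ.1 hκ.1 fun _ h => h) h1)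
  intro u hu
  obtain ⟨h2, h3, h4, h5⟩ := mem_Tr hκ.2.1 hu
  rw [h2]
  refine ZFSet.pair_mem_prod.2 ⟨h3, ?_⟩
  -- the second component is in a countable level
  set μ := ZFSet.omega ∪ fs u with hμ
  have hμκ : μ ∈ κ := union_mem' hκ (omega_mem hV hκ) h3
  have hμL : μ ∈ LC V ∅ := hL.zf.trans _ hκL _ hμκ
  have hT : ({∅} : ZFSet.{0}) ∈ LC V ∅ := hL.zf.single_mem hL.zf.empty_mem
  obtain ⟨ξ, hξ, hξo, h6, h7⟩ := sub_level hL hμL (hκ.2.1.mem hμκ)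
    (fun x hx => ZFSet.mem_union.2 (Or.inl hx)) hT (by
      intro x hx y hy
      rw [ZFSet.mem_singleton] at hx
      subst hx
      exact absurd hy (ZFSet.notMem_empty _)) (ZFSet.mem_singleton.2 rfl)
    (Inj.of_subset hL.zf hT hL.zf.infinity (by
      intro x hx
      rw [ZFSet.mem_singleton] at hx
      subst hx
      exact ZFSet.omega_zero)) h4 (fun x hx => ZFSet.mem_union.2 (Or.inr (h5 hx)))
  have h8 : ξ ∈ κ := mem_of_ctb hV hκ (hLV hξ) hξo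
    (Inj.trans hM (hLV hξ) hM.infinity (helper797_it.PG3.Inj.up hLV h6) (ctb_of_mem hκ hμκ))
  exact Lv_subset h8 h7

end Pool.Agent.H640
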